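import Pool.Agent.A856.ZD.LS2
import Pool.Agent.Y772.DK.Main

/-!
# The mollifier

Owner helper856 (zeros of Hecke L-functions in thin cosets).
-/

set_option autoImplicit false
set_option linter.unusedSectionVars false
set_option linter.unusedVariables false
set_option maxHeartbeats 4000000

open NumberField Complex Filter Topology Set MeasureTheory
open UniqueFactorizationMonoid

namespace Pool.Agent.A856.ZD

open Pool.Agent.Y773 (LI)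
open Pool.Agent.Y773.G
open Pool.Agent.A856.HW

variable {K : Type} [Field K] [NumberField K]

/-- the product of a finite set of ideals -/
noncomputable def pS (S : Finset (Ideal (𝓞 K))) : Ideal (𝓞 K) := ∏ 𝔭 ∈ S, 𝔭

lemma nf_pS {S : Finset (Ideal (𝓞 K))} (hS : ∀ 𝔭 ∈ S, Prime 𝔭) : normalizedFactors (pS S) = S.val := by
  have h : pS S = S.val.prod := by
    unfold pS
    rw [Finset.prod_eq_multiset_prod, Multiset.map_id']
  rw [h]
  exact normalizedFactors_prod_of_prime hS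

lemma pS_ne {S : Finset (Ideal (𝓞 K))} (hS : ∀ 𝔭 ∈ S, Prime 𝔭) : pS S ≠ ⊥ := by
  unfold pS
  exact Finset.prod_ne_zero_iff.mpr fun 𝔭 h => (hS 𝔭 h).ne_zero

lemma pS_inj : Set.InjOn (pS (K := K)) {S | ∀ 𝔭 ∈ S, Prime 𝔭} := by
  intro S hS S' hS' h
  apply Finset.val_injective
  rw [← nf_pS hS, ← nf_pS hS', h]

lemma finite_SX (X : ℝ) : {S : Finset (Ideal (𝓞 K)) | (∀ 𝔭 ∈ S, Prime 𝔭) ∧
    (Ideal.absNorm (pS S) : ℝ) ≤ X}.Finite := by
  have h1 : {𝔞 : Ideal (𝓞 K) | Ideal.absNorm 𝔞 ≤ ⌊X⌋₊}.Finite := Ideal.finite_setOfPred_absNorm_le _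
  refine Set.Finite.of_finite_image (f := pS) (h1.subset ?_) (pS_inj.mono fun S hS => hS.1)
  rintro _ ⟨S, ⟨_, hS⟩, rfl⟩
  exact Nat.le_floor hS

/-- the finite sets of primes with product of norm at most `X` -/
noncomputable def SX (K : Type) [Field K] [NumberField K] (X : ℝ) : Finset (Finset (Ideal (𝓞 K))) :=
  (finite_SX (K := K) X).toFinset

lemma mem_SX {X : ℝ} {S : Finset (Ideal (𝓞 K))} : S ∈ SX K X ↔ (∀ 𝔭 ∈ S, Prime 𝔭) ∧
    (Ideal.absNorm (pS S) : ℝ) ≤ X := by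
  unfold SX
  rw [Set.Finite.mem_toFinset]
  rfl

open Classical in
/-- the coefficients of the product of the L-function and the mollifier -/
noncomputable def Aq (X : ℝ) (𝔞 : Ideal (𝓞 K)) : ℂ :=
  ∑ S ∈ SX K X, if pS S ∣ 𝔞 then (-1 : ℂ) ^ S.card else 0

/-- the mollifier -/
noncomputable def Mo (X : ℝ) (ψ : Ideal (𝓞 K) →*₀ ℂ) (z : ℂ) : ℂ :=
  ∑ S ∈ SX K X, (-1 : ℂ) ^ S.card * (ψ (pS S) * ((Ideal.absNorm (pS S) : ℕ) : ℂ) ^ (-z))

open Classical in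
lemma Aq_small {X : ℝ} {𝔞 : Ideal (𝓞 K)} (h0 : 𝔞 ≠ ⊥) (hX : (Ideal.absNorm 𝔞 : ℝ) ≤ X) :
    Aq X 𝔞 = if 𝔞 = ⊤ then 1 else 0 := by
  set P := (normalizedFactors 𝔞).toFinset with hP
  have hset : (SX K X).filter (fun S => pS S ∣ 𝔞) = P.powerset := by
    ext S
    rw [Finset.mem_filter, Finset.mem_powerset, mem_SX]
    constructor
    · rintro ⟨⟨hS, -⟩, hdvd⟩ 𝔭 h𝔭
      rw [hP, Multiset.mem_toFinset, UniqueFactorizationMonoid.mem_normalizedFactors_iff h0]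
      refine ⟨hS 𝔭 h𝔭, dvd_trans ?_ hdvd⟩
      exact Finset.dvd_prod_of_mem (fun 𝔭 => 𝔭) h𝔭
    · intro hS
      have hpr : ∀ 𝔭 ∈ S, Prime 𝔭 := fun 𝔭 h𝔭 => by
        have := hS h𝔭
        rw [hP, Multiset.mem_toFinset] at this
        exact prime_of_normalized_factor 𝔭 this
      have hd : pS S ∣ 𝔞 := by
        rw [dvd_iff_normalizedFactors_le_normalizedFactors (pS_ne hpr) h0, nf_pS hpr,
          Multiset.le_iff_subset S.nodup]
        intro 𝔭 h𝔭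
        have := hS h𝔭
        rwa [hP, Multiset.mem_toFinset] at this
      refine ⟨⟨hpr, ?_⟩, hd⟩
      have h1 : Ideal.absNorm (pS S) ∣ Ideal.absNorm 𝔞 := map_dvd Ideal.absNorm hd
      have h2 : 0 < Ideal.absNorm 𝔞 := Nat.pos_of_ne_zero fun h => h0 (Ideal.absNorm_eq_zero_iff.mp h)
      have h3 := Nat.le_of_dvd h2 h1
      have h4 : (Ideal.absNorm (pS S) : ℝ) ≤ (Ideal.absNorm 𝔞 : ℝ) := by exact_mod_cast h3
      exact h4.trans hX
  unfold Aq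
  rw [← Finset.sum_filter, hset]
  have h1 : ∑ S ∈ P.powerset, (-1 : ℂ) ^ S.card = ((∑ S ∈ P.powerset, (-1 : ℤ) ^ S.card : ℤ) : ℂ) := by
    push_cast
    rfl
  rw [h1, Finset.sum_powerset_neg_one_pow_card]
  have h2 : P = ∅ ↔ 𝔞 = ⊤ := by
    rw [hP, Multiset.toFinset_eq_empty]
    constructor
    · intro h
      have h3 := prod_normalizedFactors h0
      rw [h, Multiset.prod_zero] at h3
      rw [← Ideal.one_eq_top]
      exact (associated_iff_eq.mp h3).symm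
    · intro h
      rw [h, ← Ideal.one_eq_top, normalizedFactors_one]
  by_cases h3 : 𝔞 = ⊤
  · rw [if_pos h3, if_pos (h2.mpr h3), Int.cast_one]
  · rw [if_neg h3, if_neg (fun h => h3 (h2.mp h)), Int.cast_zero]

open Classical in
lemma norm_Aq_le (X : ℝ) {𝔞 : Ideal (𝓞 K)} (h0 : 𝔞 ≠ ⊥) : ‖Aq X 𝔞‖ ≤ tau 𝔞 := by
  unfold Aq
  rw [← Finset.sum_filter]
  refine (norm_sum_le _ _).trans ?_
  have h1 : ∀ S ∈ (SX K X).filter (fun S => pS S ∣ 𝔞), ‖(-1 : ℂ) ^ S.card‖ ≤ 1 := by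
    intro S _
    rw [norm_pow, norm_neg, norm_one, one_pow]
  refine (Finset.sum_le_sum h1).trans ?_
  rw [Finset.sum_const, nsmul_eq_mul, mul_one]
  have hfin : Finite {𝔢 : Ideal (𝓞 K) // 𝔢 ∣ 𝔞} := finite_dvd h0
  unfold tau
  rw [← Nat.card_eq_finsetCard]
  have h2 := Nat.card_le_card_of_injective (fun S : ((SX K X).filter (fun S => pS S ∣ 𝔞) : Finset _) =>
    (⟨pS S.1, (Finset.mem_filter.mp S.2).2⟩ : {𝔢 : Ideal (𝓞 K) // 𝔢 ∣ 𝔞})) (by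
      intro S S' h
      have h3 : pS S.1 = pS S'.1 := congrArg Subtype.val h
      have h4 := (mem_SX.mp (Finset.mem_filter.mp S.2).1).1
      have h5 := (mem_SX.mp (Finset.mem_filter.mp S'.2).1).1
      exact Subtype.ext (pS_inj h4 h5 h3))
  exact_mod_cast h2

lemma summable_LI' {ψ : Ideal (𝓞 K) →*₀ ℂ} (hψ : ∀ 𝔞, ‖ψ 𝔞‖ ≤ 1) {z : ℂ} (hz : 1 < z.re) :
    Summable (fun 𝔞 : Ideal (𝓞 K) => ‖ψ 𝔞 * ((Ideal.absNorm 𝔞 : ℕ) : ℂ) ^ (-z)‖) := by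
  obtain ⟨A, hA, h⟩ := Pool.Agent.Y772.DK.t_dirK K
  exact (h ψ hψ).1 z hz

open Classical in
/-- **the product of the L-function and the mollifier** -/
lemma LI_mul_Mo {ψ : Ideal (𝓞 K) →*₀ ℂ} (hψ : ∀ 𝔞, ‖ψ 𝔞‖ ≤ 1) (X : ℝ) {z : ℂ} (hz : 1 < z.re) :
    (Summable fun 𝔞 : Ideal (𝓞 K) => ‖Aq X 𝔞 * (ψ 𝔞 * ((Ideal.absNorm 𝔞 : ℕ) : ℂ) ^ (-z))‖) ∧
    LI ψ z * Mo X ψ z = ∑' 𝔞 : Ideal (𝓞 K), Aq X 𝔞 * (ψ 𝔞 * ((Ideal.absNorm 𝔞 : ℕ) : ℂ) ^ (-z)) := by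
  set f : Ideal (𝓞 K) → ℂ := fun 𝔞 => ψ 𝔞 * ((Ideal.absNorm 𝔞 : ℕ) : ℂ) ^ (-z) with hf
  have hs : Summable fun 𝔞 => ‖f 𝔞‖ := summable_LI' hψ hz
  have hz0 : -z ≠ 0 := by
    intro h
    have := congrArg Complex.re h
    simp at this
    linarith
  -- one set
  have hone : ∀ S ∈ SX K X, (-1 : ℂ) ^ S.card * (ψ (pS S) * ((Ideal.absNorm (pS S) : ℕ) : ℂ) ^ (-z)) *
      ∑' 𝔞, f 𝔞 = ∑' 𝔞, (if pS S ∣ 𝔞 then (-1 : ℂ) ^ S.card else 0) * f 𝔞 := by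
    intro S hS
    have hne := pS_ne (mem_SX.mp hS).1
    have hinj : Function.Injective fun 𝔠 : Ideal (𝓞 K) => pS S * 𝔠 := fun 𝔠 𝔠' h =>
      mul_left_cancel₀ hne h
    rw [← hinj.tsum_eq (f := fun 𝔞 => (if pS S ∣ 𝔞 then (-1 : ℂ) ^ S.card else 0) * f 𝔞) (by
      intro 𝔞 h𝔞
      rw [Function.mem_support] at h𝔞
      have : pS S ∣ 𝔞 := by
        by_contra hcon
        apply h𝔞
        rw [if_neg hcon, zero_mul]
      obtain ⟨𝔠, rfl⟩ := this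
      exact ⟨𝔠, rfl⟩), ← tsum_mul_left]
    refine tsum_congr fun 𝔠 => ?_
    rw [if_pos (dvd_mul_right _ _), hf]
    simp only
    rw [map_mul, map_mul, Nat.cast_mul, Complex.natCast_mul_natCast_cpow]
    ring
  have hsS : ∀ S ∈ SX K X, Summable fun 𝔞 => (if pS S ∣ 𝔞 then (-1 : ℂ) ^ S.card else 0) * f 𝔞 := by
    intro S _
    refine Summable.of_norm_bounded hs fun 𝔞 => ?_
    rw [norm_mul]
    refine mul_le_of_le_one_left (norm_nonneg _) ?_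
    split_ifs
    · rw [norm_pow, norm_neg, norm_one, one_pow]
    · rw [norm_zero]; norm_num
  refine ⟨?_, ?_⟩
  · have h2 : Summable fun 𝔞 => ∑ S ∈ SX K X, ‖(if pS S ∣ 𝔞 then (-1 : ℂ) ^ S.card else 0) * f 𝔞‖ := by
      refine summable_sum fun S _ => ?_
      refine Summable.of_nonneg_of_le (fun _ => norm_nonneg _) (fun 𝔞 => ?_) hs
      rw [norm_mul]
      refine mul_le_of_le_one_left (norm_nonneg _) ?_
      split_ifs
      · rw [norm_pow, norm_neg, norm_one, one_pow]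
      · rw [norm_zero]; norm_num
    refine Summable.of_nonneg_of_le (fun _ => norm_nonneg _) (fun 𝔞 => ?_) h2
    unfold Aq
    change ‖(∑ S ∈ SX K X, if pS S ∣ 𝔞 then (-1 : ℂ) ^ S.card else 0) * f 𝔞‖ ≤ _
    rw [Finset.sum_mul]
    exact norm_sum_le _ _
  · unfold Mo LI
    rw [mul_comm, Finset.sum_mul, Finset.sum_congr rfl hone, ← Summable.tsum_finsetSum hsS]
    refine tsum_congr fun 𝔞 => ?_
    unfold Aq
    rw [Finset.sum_mul]

open Classical in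
/-- the products of primes of norm at most `X` -/
noncomputable def TX (K : Type) [Field K] [NumberField K] (X : ℝ) : Finset (Ideal (𝓞 K)) :=
  (SX K X).image pS

lemma TX_le {X : ℝ} {𝔞 : Ideal (𝓞 K)} (h : 𝔞 ∈ TX K X) : 𝔞 ≠ ⊥ ∧ (Ideal.absNorm 𝔞 : ℝ) ≤ X := by
  classical
  obtain ⟨S, hS, rfl⟩ := Finset.mem_image.mp h
  exact ⟨pS_ne (mem_SX.mp hS).1, (mem_SX.mp hS).2⟩

/-- the coefficients of the mollifier -/
noncomputable def bM (z : ℂ) (𝔞 : Ideal (𝓞 K)) : ℂ :=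
  (-1 : ℂ) ^ (Multiset.card (normalizedFactors 𝔞)) * ((Ideal.absNorm 𝔞 : ℕ) : ℂ) ^ (-z)

lemma Mo_eq (X : ℝ) (ψ : Ideal (𝓞 K) →*₀ ℂ) (z : ℂ) :
    Mo X ψ z = ∑ 𝔞 ∈ TX K X, bM z 𝔞 * ψ 𝔞 := by
  classical
  unfold TX Mo
  rw [Finset.sum_image (fun S hS S' hS' h => pS_inj (mem_SX.mp hS).1 (mem_SX.mp hS').1 h)]
  refine Finset.sum_congr rfl fun S hS => ?_
  unfold bM
  rw [nf_pS (mem_SX.mp hS).1]
  change _ = (-1 : ℂ) ^ S.card * _ * _
  ring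

lemma norm_bM {z : ℂ} {𝔞 : Ideal (𝓞 K)} (h : 𝔞 ≠ ⊥) : ‖bM z 𝔞‖ = (Ideal.absNorm 𝔞 : ℝ) ^ (-z.re) := by
  unfold bM
  rw [norm_mul, norm_pow, norm_neg, norm_one, one_pow, one_mul]
  have h0 := absNorm_pos0 h
  rw [← Complex.ofReal_natCast, Complex.norm_cpow_eq_rpow_re_of_pos h0, Complex.neg_re]

lemma differentiable_Mo (X : ℝ) (ψ : Ideal (𝓞 K) →*₀ ℂ) : Differentiable ℂ (Mo X ψ) := by
  unfold Mo
  refine Differentiable.fun_sum fun S hS => ?_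
  refine Differentiable.const_mul (Differentiable.const_mul ?_ _) _
  intro z
  have h0 : ((Ideal.absNorm (pS S) : ℕ) : ℂ) ≠ 0 := by
    have := absNorm_pos0 (pS_ne (mem_SX.mp hS).1)
    exact_mod_cast this.ne'
  exact (differentiableAt_id.neg).const_cpow (Or.inl h0)

end Pool.Agent.A856.ZD
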