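import Pool.Agent.A856.ZD.Fin

/-!
# Counting the characters with a zero

Owner helper856 (zeros of Hecke L-functions in thin cosets).
-/

set_option autoImplicit false
set_option linter.unusedSectionVars false
set_option linter.unusedVariables false
set_option maxHeartbeats 4000000

open NumberField Complex Filter Topology Set MeasureTheory

namespace Pool.Agent.A856.ZD

open Pool.Agent.Y773 (LI rp)
open Pool.Agent.Y773.G
open Pool.Agent.A856.HW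
open Pool.Agent.R399.TW (pt pt_re pt_im pt_cont strip)

variable {K : Type} [Field K] [NumberField K]

/-- polynomial weights beat the translates of the Gaussian -/
lemma gauss_poly (B : ℕ) : ∃ C : ℝ, 0 < C ∧ ∀ T γ t : ℝ, |γ| ≤ T →
    Real.exp (-(t - γ) ^ 2) ≤ C * (1 + T) ^ B * ((1 + |t|) ^ B)⁻¹ := by
  refine ⟨(B.factorial : ℝ) * Real.exp 2, by positivity, fun T γ t hγ => ?_⟩
  have hT : 0 ≤ T := (abs_nonneg γ).trans hγ
  set u : ℝ := |t - γ| with hu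
  have hu0 : 0 ≤ u := abs_nonneg _
  have h1 : 1 + |t| ≤ (1 + T) * (1 + u) := by
    have h2 : |t| ≤ u + |γ| := by
      have := abs_add_le (t - γ) γ
      simpa [hu] using this
    nlinarith
  have h2 : (1 + |t|) ^ B ≤ (1 + T) ^ B * (1 + u) ^ B := by
    rw [← mul_pow]
    exact pow_le_pow_left₀ (by positivity) h1 B
  have h3 : (1 + u) ^ B ≤ (B.factorial : ℝ) * Real.exp (1 + u) := by
    have := Real.pow_div_factorial_le_exp (1 + u) (by positivity) B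
    rw [div_le_iff₀ (by positivity)] at this
    linarith
  have h4 : Real.exp (1 + u) * Real.exp (-u ^ 2) ≤ Real.exp 2 := by
    rw [← Real.exp_add, Real.exp_le_exp]
    nlinarith [sq_nonneg (u - 1 / 2)]
  have h5 : (t - γ) ^ 2 = u ^ 2 := (sq_abs _).symm
  rw [h5]
  have h6 : 0 < (1 + |t|) ^ B := by positivity
  rw [← div_eq_mul_inv, le_div_iff₀ h6]
  calc Real.exp (-u ^ 2) * (1 + |t|) ^ B ≤ Real.exp (-u ^ 2) * ((1 + T) ^ B * ((B.factorial : ℝ) * Real.exp (1 + u))) := by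
        apply mul_le_mul_of_nonneg_left _ (Real.exp_pos _).le
        refine h2.trans ?_
        gcongr
    _ = (B.factorial : ℝ) * (1 + T) ^ B * (Real.exp (1 + u) * Real.exp (-u ^ 2)) := by ring
    _ ≤ (B.factorial : ℝ) * (1 + T) ^ B * Real.exp 2 := by gcongr
    _ = _ := by ring

/-- the kernel on a line -/
lemma norm_Kr {L : ℝ} {ρ : ℂ} {κ a : ℝ} (ha : 0 < a) (ha2 : a ≤ |κ - ρ.re|) (h2 : |κ - ρ.re| ≤ 2) (t : ℝ) :
    ‖KN L ρ (pt κ t) / (pt κ t - ρ)‖ ≤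
      Real.exp 4 * Real.exp (L * (κ - ρ.re)) * a⁻¹ * Real.exp (-(t - ρ.im) ^ 2) := by
  rw [norm_div, norm_KN, Real.exp_add]
  have h3 : a ≤ ‖pt κ t - ρ‖ := by
    refine ha2.trans ?_
    have := Complex.abs_re_le_norm (pt κ t - ρ)
    rwa [Complex.sub_re, pt_re] at this
  have h4 : Real.exp ((κ - ρ.re) ^ 2) ≤ Real.exp 4 := by
    apply Real.exp_le_exp.mpr
    rw [← sq_abs]
    nlinarith [abs_nonneg (κ - ρ.re)]
  rw [div_eq_mul_inv]
  have h5 : ‖pt κ t - ρ‖⁻¹ ≤ a⁻¹ := inv_anti₀ ha h3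
  calc Real.exp ((κ - ρ.re) ^ 2) * Real.exp (L * (κ - ρ.re)) * Real.exp (-(t - ρ.im) ^ 2) * ‖pt κ t - ρ‖⁻¹
      ≤ Real.exp 4 * Real.exp (L * (κ - ρ.re)) * Real.exp (-(t - ρ.im) ^ 2) * a⁻¹ := by gcongr
    _ = _ := by ring

lemma int_g : Integrable fun t : ℝ => ((1 + |t|) ^ 2)⁻¹ := by
  refine integrable_inv_one_add_sq.mono' ?_ (Eventually.of_forall fun t => ?_)
  · have : Continuous fun t : ℝ => ((1 + |t|) ^ 2)⁻¹ := by
      refine Continuous.inv₀ (by fun_prop) fun t => ?_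
      positivity
    exact this.aestronglyMeasurable
  · rw [Real.norm_eq_abs, abs_of_nonneg (by positivity)]
    apply inv_anti₀ (by positivity)
    have h1 : t ^ 2 = |t| ^ 2 := (sq_abs t).symm
    nlinarith [abs_nonneg t]

lemma int_g_le : ∫ t : ℝ, ((1 + |t|) ^ 2)⁻¹ ≤ Real.pi := by
  rw [← integral_univ_inv_one_add_sq]
  refine integral_mono int_g integrable_inv_one_add_sq fun t => ?_
  apply inv_anti₀ (by positivity)
  have h1 : t ^ 2 = |t| ^ 2 := (sq_abs t).symm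
  nlinarith [abs_nonneg t]

/-- Cauchy-Schwarz for finite sums -/
lemma cs_sum {I : Type} [Fintype I] (V : Finset I) (f g : I → ℂ) {P Q : ℝ} (hP : ∑ i, ‖f i‖ ^ 2 ≤ P ^ 2)
    (hQ : ∑ i, ‖g i‖ ^ 2 ≤ Q ^ 2) (hP0 : 0 ≤ P) (hQ0 : 0 ≤ Q) : ∑ i ∈ V, ‖f i * g i‖ ≤ P * Q := by
  have h1 : ∑ i ∈ V, ‖f i * g i‖ ≤ ∑ i, ‖f i‖ * ‖g i‖ := by
    calc ∑ i ∈ V, ‖f i * g i‖ ≤ ∑ i, ‖f i * g i‖ :=
          Finset.sum_le_sum_of_subset_of_nonneg (Finset.subset_univ _) fun _ _ _ => norm_nonneg _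
      _ = _ := Finset.sum_congr rfl fun i _ => norm_mul _ _
  have h2 := Finset.sum_mul_sq_le_sq_mul_sq Finset.univ (fun i => ‖f i‖) (fun i => ‖g i‖)
  have h3 : (∑ i, ‖f i‖ * ‖g i‖) ^ 2 ≤ (P * Q) ^ 2 := by
    refine h2.trans ?_
    rw [mul_pow]
    exact mul_le_mul hP hQ (Finset.sum_nonneg fun _ _ => sq_nonneg _) (sq_nonneg _)
  exact h1.trans (le_of_sq_le_sq h3 (by positivity))

/-- **zero density for a family** -/
theorem zd_fam (K : Type) [Field K] [NumberField K] {η : ℝ} (hη : 0 < η) (hη1 : η ≤ 1 / 4) :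
    ∃ C : ℝ, 0 < C ∧ ∀ (𝔣 𝔡 : Ideal (𝓞 K)) (e : InfinitePlace K → ℕ) (I : Type) [Fintype I]
      (ψ : I → Ideal (𝓞 K) →*₀ ℂ), Fam 𝔣 𝔡 e ψ → 𝔣 ≠ ⊥ → 𝔣 ≤ 𝔡 → 𝔡 ^ 3 ≤ 𝔣 →
      ∀ F : I → ℂ → ℂ, (∀ i, Differentiable ℂ (F i)) →
        (∀ i, ∀ s : ℂ, 1 < s.re → F i s = LI (ψ i) s) →
      ∀ σ T : ℝ, 1 / 2 + η ≤ σ → σ ≤ 1 → 0 ≤ T → ∀ V : Finset I,
        (∀ i ∈ V, ∃ ρ : ℂ, F i ρ = 0 ∧ σ ≤ ρ.re ∧ ρ.re ≤ 1 ∧ |ρ.im| ≤ T) →
        (V.card : ℝ) ≤ C * (1 + T) ^ (2 * (3 * Module.finrank ℚ K + 2)) *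
          ((Ideal.absNorm 𝔡 : ℝ) ^ (4 * (1 - σ) / (3 - 2 * σ)) * (Ideal.absNorm 𝔣 : ℝ) ^ (8 * η)) := by
  classical
  obtain ⟨C₁, hC₁, hD⟩ := D_mean K hη
  obtain ⟨C₂, hC₂, hL⟩ := L_fam_eps K hη
  obtain ⟨C₃, hC₃, hMo⟩ := Mo_mean K hη
  set n := Module.finrank ℚ K with hn
  set B : ℕ := 3 * n + 2 with hB
  obtain ⟨C₄, hC₄, hG⟩ := gauss_poly B
  set κ : ℝ := 1 + 2 * η with hκ
  set a₁ : ℝ := Real.exp 4 * (2 * η)⁻¹ * C₄ with ha₁
  set a₂ : ℝ := Real.exp 4 * η⁻¹ * C₄ with ha₂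
  have hpi := Real.pi_pos
  refine ⟨a₁ ^ 2 * Real.pi ^ 2 * C₁ + a₂ * √C₂ * √C₃ * Real.pi, by positivity, ?_⟩
  intro 𝔣 𝔡 e I hI ψ hF hf0 h1 h3 F hFd hFL σ T hσ hσ1 hT V hV
  have hd0 : 𝔡 ≠ ⊥ := fun h5 => hf0 (by rw [h5] at h1; exact le_bot_iff.mp h1)
  have hNd := one_le_absNorm hd0
  have hNf := one_le_absNorm hf0
  set X : ℝ := (Ideal.absNorm 𝔡 : ℝ) with hX
  set N : ℝ := (Ideal.absNorm 𝔣 : ℝ) with hN
  have hX0 : 0 < X := by linarith
  have hN0 : 0 < N := by linarith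
  have hXN : X ≤ N := by
    have h5 : Ideal.absNorm 𝔡 ∣ Ideal.absNorm 𝔣 := map_dvd Ideal.absNorm (Ideal.dvd_iff_le.mpr h1)
    have h6 : 0 < Ideal.absNorm 𝔣 := Nat.pos_of_ne_zero fun h => hf0 (Ideal.absNorm_eq_zero_iff.mp h)
    rw [hX, hN]
    exact_mod_cast Nat.le_of_dvd h6 h5
  set y : ℝ := 1 / (3 / 2 - σ) with hy
  have h32 : 0 < 3 / 2 - σ := by linarith
  have hy0 : 0 < y := by positivity
  have hy2 : y ≤ 2 := by
    rw [hy, div_le_iff₀ h32]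
    linarith
  set L : ℝ := y * Real.log X with hLdef
  have hlX : 0 ≤ Real.log X := Real.log_nonneg hNd
  have hL0 : 0 ≤ L := by positivity
  set θ : ℝ := 4 * (1 - σ) / (3 - 2 * σ) with hθ
  have hθy : θ = y * (2 - 2 * σ) := by
    rw [hθ, hy]
    have : 3 - 2 * σ ≠ 0 := by linarith
    field_simp
    ring
  have hθy2 : θ = 1 - y * (σ - 1 / 2) := by
    have hy1 : y * (3 / 2 - σ) = 1 := by
      rw [hy, one_div, inv_mul_cancel₀ h32.ne']
    rw [hθy]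
    linear_combination hy1
  have hθ0 : 0 ≤ θ := by
    rw [hθy]
    have : 0 ≤ 2 - 2 * σ := by linarith
    positivity
  have hexp : ∀ c : ℝ, Real.exp (L * c) = X ^ (y * c) := by
    intro c
    rw [Real.rpow_def_of_pos hX0, hLdef]
    congr 1
    ring
  -- the functions
  set D : I → ℝ → ℂ := fun i t => F i (pt κ t) * Mo X (ψ i) (pt κ t) - 1 with hDdef
  set P : I → ℝ → ℂ := fun i t => F i (pt (1 / 2) t) * Mo X (ψ i) (pt (1 / 2) t) with hPdef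
  have hDm : ∀ t, ∑ i, ‖D i t‖ ^ 2 ≤ C₁ := fun t => hD 𝔣 𝔡 e I ψ hF hf0 h1 h3 F hFL t
  have hDc : ∀ i, Continuous (D i) := fun i =>
    (((hFd i).continuous.comp (pt_cont κ)).mul
      ((differentiable_Mo X (ψ i)).continuous.comp (pt_cont κ))).sub continuous_const
  have hPc : ∀ i, Continuous (P i) := fun i =>
    ((hFd i).continuous.comp (pt_cont (1 / 2))).mul
      ((differentiable_Mo X (ψ i)).continuous.comp (pt_cont (1 / 2)))
  have hpt : ∀ t : ℝ, pt (1 / 2) t = 1 / 2 + t * Complex.I := by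
    intro t
    unfold pt
    push_cast
    ring
  -- bounds for the sum of the products on the critical line
  set G : ℝ := √C₂ * √C₃ * (X * N ^ η) with hGdef
  have hG0 : 0 ≤ G := by positivity
  have hPm : ∀ t (W : Finset I), ∑ i ∈ W, ‖P i t‖ ≤ G * (1 + |t|) ^ (3 * n) := by
    intro t W
    have e1 := hL 𝔣 𝔡 e I ψ hF hf0 h1 h3 F hFd hFL t
    have e2 := hMo 𝔣 𝔡 e I ψ hF hf0 h1 h3 t
    have hq1 : C₂ * (1 + |t|) ^ (6 * n) * (X * N ^ η) =
        (√C₂ * (1 + |t|) ^ (3 * n) * √(X * N ^ η)) ^ 2 := by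
      rw [mul_pow, mul_pow, Real.sq_sqrt hC₂.le, Real.sq_sqrt (by positivity), ← pow_mul]
      congr 3
      ring
    have hq2 : C₃ * (X * X ^ η) ≤ (√C₃ * √(X * N ^ η)) ^ 2 := by
      rw [mul_pow, Real.sq_sqrt hC₃.le, Real.sq_sqrt (by positivity)]
      have : X ^ η ≤ N ^ η := Real.rpow_le_rpow hX0.le hXN hη.le
      gcongr
    rw [hq1] at e1
    have e3 : ∑ i, ‖F i (pt (1 / 2) t)‖ ^ 2 ≤ (√C₂ * (1 + |t|) ^ (3 * n) * √(X * N ^ η)) ^ 2 := by
      rw [hpt]; exact e1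
    have e4 := cs_sum W (fun i => F i (pt (1 / 2) t)) (fun i => Mo X (ψ i) (pt (1 / 2) t)) e3
      (e2.trans hq2) (by positivity) (by positivity)
    refine e4.trans (le_of_eq ?_)
    rw [hGdef]
    have e5 : √(X * N ^ η) * √(X * N ^ η) = X * N ^ η := Real.mul_self_sqrt (by positivity)
    calc _ = √C₂ * √C₃ * (√(X * N ^ η) * √(X * N ^ η)) * (1 + |t|) ^ (3 * n) := by ring
      _ = _ := by rw [e5]
  -- the zeros
  choose! ρ hρ using hV
  set E₁ : ℝ := a₁ * (1 + T) ^ B * X ^ (y * (κ - σ)) with hE₁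
  set E₂ : ℝ := a₂ * (1 + T) ^ B * X ^ (-(y * (σ - 1 / 2))) with hE₂
  have hE₁0 : 0 < E₁ := by positivity
  have hE₂0 : 0 < E₂ := by positivity
  set g : ℝ → ℝ := fun t => ((1 + |t|) ^ 2)⁻¹ with hg
  have hgint : Integrable g := int_g
  have hωg : ∀ t : ℝ, ((1 + |t|) ^ B)⁻¹ ≤ g t := by
    intro t
    apply inv_anti₀ (by positivity)
    apply pow_le_pow_right₀ (by linarith [abs_nonneg t])
    omega
  have hωg2 : ∀ t : ℝ, (1 + |t|) ^ (3 * n) * ((1 + |t|) ^ B)⁻¹ = g t := by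
    intro t
    have : 0 < 1 + |t| := by positivity
    rw [hg, hB, pow_add]
    field_simp
  have hK1 : ∀ i ∈ V, ∀ t, ‖KN L (ρ i) (pt κ t) / (pt κ t - ρ i)‖ ≤ E₁ * g t := by
    intro i hi t
    obtain ⟨-, p1, p2, p3⟩ := hρ i hi
    have q1 : 0 ≤ κ - (ρ i).re := by rw [hκ]; linarith
    have q2 := norm_Kr (L := L) (ρ := ρ i) (κ := κ) (a := 2 * η) (by positivity)
      (by rw [abs_of_nonneg q1, hκ]; linarith) (by rw [abs_of_nonneg q1, hκ]; linarith) t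
    refine q2.trans ?_
    have q3 : Real.exp (L * (κ - (ρ i).re)) ≤ X ^ (y * (κ - σ)) := by
      rw [← hexp]
      apply Real.exp_le_exp.mpr
      apply mul_le_mul_of_nonneg_left _ hL0
      linarith
    have q4 := (hG T (ρ i).im t p3).trans (mul_le_mul_of_nonneg_left (hωg t) (by positivity))
    calc Real.exp 4 * Real.exp (L * (κ - (ρ i).re)) * (2 * η)⁻¹ * Real.exp (-(t - (ρ i).im) ^ 2)
        ≤ Real.exp 4 * X ^ (y * (κ - σ)) * (2 * η)⁻¹ * (C₄ * (1 + T) ^ B * g t) := by gcongr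
      _ = _ := by rw [hE₁, ha₁]; ring
  have hK2 : ∀ i ∈ V, ∀ t, ‖KN L (ρ i) (pt (1 / 2) t) / (pt (1 / 2) t - ρ i)‖ ≤
      E₂ * ((1 + |t|) ^ B)⁻¹ := by
    intro i hi t
    obtain ⟨-, p1, p2, p3⟩ := hρ i hi
    have q1 : 1 / 2 - (ρ i).re ≤ 0 := by linarith
    have q2 := norm_Kr (L := L) (ρ := ρ i) (κ := 1 / 2) (a := η) (by positivity)
      (by rw [abs_of_nonpos q1]; linarith) (by rw [abs_of_nonpos q1]; linarith) t
    refine q2.trans ?_
    have q3 : Real.exp (L * (1 / 2 - (ρ i).re)) ≤ X ^ (-(y * (σ - 1 / 2))) := by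
      have : -(y * (σ - 1 / 2)) = y * (-(σ - 1 / 2)) := by ring
      rw [this, ← hexp]
      apply Real.exp_le_exp.mpr
      apply mul_le_mul_of_nonneg_left _ hL0
      linarith
    have q4 := hG T (ρ i).im t p3
    calc Real.exp 4 * Real.exp (L * (1 / 2 - (ρ i).re)) * η⁻¹ * Real.exp (-(t - (ρ i).im) ^ 2)
        ≤ Real.exp 4 * X ^ (-(y * (σ - 1 / 2))) * η⁻¹ * (C₄ * (1 + T) ^ B * ((1 + |t|) ^ B)⁻¹) := by gcongr
      _ = _ := by rw [hE₂, ha₂]; ring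
  -- integrability
  have hD1 : ∀ i t, ‖D i t‖ ≤ √C₁ := by
    intro i t
    apply Real.le_sqrt_of_sq_le
    exact (Finset.single_le_sum (f := fun i => ‖D i t‖ ^ 2) (fun _ _ => sq_nonneg _)
      (Finset.mem_univ i)).trans (hDm t)
  have hgc : Continuous g := by
    rw [hg]
    refine Continuous.inv₀ (by fun_prop) fun t => ?_
    positivity
  have hg0 : ∀ t, 0 ≤ g t := fun t => by rw [hg]; positivity
  have hD2i : ∀ i, Integrable fun t => ‖D i t‖ ^ 2 * g t := by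
    intro i
    refine (hgint.const_mul (√C₁ ^ 2)).mono' ?_ (Eventually.of_forall fun t => ?_)
    · exact (((hDc i).norm.pow 2).mul hgc).aestronglyMeasurable
    · rw [Real.norm_eq_abs, abs_of_nonneg (mul_nonneg (sq_nonneg _) (hg0 t))]
      have := hD1 i t
      have := hg0 t
      gcongr
  have hP1 : ∀ i t, ‖P i t‖ * ((1 + |t|) ^ B)⁻¹ ≤ G * g t := by
    intro i t
    have e1 := hPm t {i}
    rw [Finset.sum_singleton] at e1
    rw [← hωg2 t, ← mul_assoc]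
    exact mul_le_mul_of_nonneg_right e1 (by positivity)
  have hωc : Continuous fun t : ℝ => ((1 + |t|) ^ B)⁻¹ := by
    refine Continuous.inv₀ (by fun_prop) fun t => ?_
    positivity
  have hPi : ∀ i, Integrable fun t => ‖P i t‖ * ((1 + |t|) ^ B)⁻¹ := by
    intro i
    refine (hgint.const_mul G).mono' ?_ (Eventually.of_forall fun t => ?_)
    · exact ((hPc i).norm.mul hωc).aestronglyMeasurable
    · rw [Real.norm_eq_abs, abs_of_nonneg (by positivity)]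
      exact hP1 i t
  -- the inequality for one character
  have hmain : ∀ i ∈ V, (1 : ℝ) ≤ E₁ ^ 2 * Real.pi * ∫ t, ‖D i t‖ ^ 2 * g t ∨
      (1 : ℝ) ≤ E₂ * ∫ t, ‖P i t‖ * ((1 + |t|) ^ B)⁻¹ := by
    intro i hi
    obtain ⟨p0, p1, p2, p3⟩ := hρ i hi
    have hdet := detect (hF.prim i) (hF.mod i) (hFd i) (hFL i) X (L := L) (κ := κ) hL0
      (by rw [hκ]; linarith) (by rw [hκ]; linarith) (ρ := ρ i) (by linarith) p2 p0
    by_contra hcon
    push Not at hcon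
    obtain ⟨hc1, hc2⟩ := hcon
    -- the second integral
    have hI2 : ∫ t : ℝ, ‖P i t‖ * ‖KN L (ρ i) (pt (1 / 2) t) / (pt (1 / 2) t - ρ i)‖ < 1 := by
      refine lt_of_le_of_lt ?_ hc2
      rw [← integral_const_mul]
      refine integral_mono_of_nonneg (Eventually.of_forall fun t => by positivity)
        ((hPi i).const_mul E₂) (Eventually.of_forall fun t => ?_)
      have := hK2 i hi t
      calc ‖P i t‖ * ‖KN L (ρ i) (pt (1 / 2) t) / (pt (1 / 2) t - ρ i)‖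
          ≤ ‖P i t‖ * (E₂ * ((1 + |t|) ^ B)⁻¹) := by gcongr
        _ = _ := by ring
    -- the first integral
    have hI1 : ∫ t : ℝ, ‖D i t‖ * ‖KN L (ρ i) (pt κ t) / (pt κ t - ρ i)‖ ≤ 1 := by
      have hlam : 0 < E₁ * Real.pi := by positivity
      have e1 : ∫ t : ℝ, ‖D i t‖ * ‖KN L (ρ i) (pt κ t) / (pt κ t - ρ i)‖ ≤
          ∫ t : ℝ, (E₁ * (E₁ * Real.pi) / 2) * (‖D i t‖ ^ 2 * g t) +
            (E₁ / (2 * (E₁ * Real.pi))) * g t := by
        refine integral_mono_of_nonneg (Eventually.of_forall fun t => by positivity)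
          (((hD2i i).const_mul _).add (hgint.const_mul _)) (Eventually.of_forall fun t => ?_)
        have e2 : ‖D i t‖ ≤ (E₁ * Real.pi) / 2 * ‖D i t‖ ^ 2 + 1 / (2 * (E₁ * Real.pi)) := by
          have e3 : 0 ≤ (E₁ * Real.pi * ‖D i t‖ - 1) ^ 2 := sq_nonneg _
          have e4 : (E₁ * Real.pi) / 2 * ‖D i t‖ ^ 2 + 1 / (2 * (E₁ * Real.pi)) - ‖D i t‖ =
              (E₁ * Real.pi * ‖D i t‖ - 1) ^ 2 / (2 * (E₁ * Real.pi)) := by
            field_simp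
            ring
          have e5 : 0 ≤ (E₁ * Real.pi * ‖D i t‖ - 1) ^ 2 / (2 * (E₁ * Real.pi)) := by positivity
          linarith
        have e6 := hg0 t
        calc ‖D i t‖ * ‖KN L (ρ i) (pt κ t) / (pt κ t - ρ i)‖
            ≤ ‖D i t‖ * (E₁ * g t) := mul_le_mul_of_nonneg_left (hK1 i hi t) (norm_nonneg _)
          _ ≤ ((E₁ * Real.pi) / 2 * ‖D i t‖ ^ 2 + 1 / (2 * (E₁ * Real.pi))) * (E₁ * g t) :=
              mul_le_mul_of_nonneg_right e2 (by positivity)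
          _ = _ := by ring
      refine e1.trans ?_
      rw [integral_add ((hD2i i).const_mul _) (hgint.const_mul _), integral_const_mul,
        integral_const_mul]
      have e7 := int_g_le
      have e8 : E₁ / (2 * (E₁ * Real.pi)) * ∫ t, g t ≤ 1 / 2 := by
        have : E₁ / (2 * (E₁ * Real.pi)) = 1 / (2 * Real.pi) := by field_simp
        rw [this]
        calc 1 / (2 * Real.pi) * ∫ t, g t ≤ 1 / (2 * Real.pi) * Real.pi :=
              mul_le_mul_of_nonneg_left e7 (by positivity)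
          _ = 1 / 2 := by field_simp
      have e9 : E₁ * (E₁ * Real.pi) / 2 * ∫ t, ‖D i t‖ ^ 2 * g t ≤ 1 / 2 := by
        have : E₁ * (E₁ * Real.pi) / 2 * ∫ t, ‖D i t‖ ^ 2 * g t =
          (E₁ ^ 2 * Real.pi * ∫ t, ‖D i t‖ ^ 2 * g t) / 2 := by ring
        rw [this]
        linarith
      linarith
    have h314 := Real.pi_gt_three
    have : Real.pi ≤ 1 + 1 := by
      refine hdet.trans (add_le_add hI1 hI2.le)
    linarith
  -- counting
  have hone : ∀ i ∈ V, (1 : ℝ) ≤ E₁ ^ 2 * Real.pi * (∫ t, ‖D i t‖ ^ 2 * g t) +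
      E₂ * ∫ t, ‖P i t‖ * ((1 + |t|) ^ B)⁻¹ := by
    intro i hi
    have n1 : 0 ≤ ∫ t, ‖D i t‖ ^ 2 * g t := integral_nonneg fun t => mul_nonneg (sq_nonneg _) (hg0 t)
    have n2 : 0 ≤ ∫ t, ‖P i t‖ * ((1 + |t|) ^ B)⁻¹ := integral_nonneg fun t => by positivity
    rcases hmain i hi with h | h
    · have : 0 ≤ E₂ * ∫ t, ‖P i t‖ * ((1 + |t|) ^ B)⁻¹ := by positivity
      linarith
    · have : 0 ≤ E₁ ^ 2 * Real.pi * (∫ t, ‖D i t‖ ^ 2 * g t) := by positivity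
      linarith
  have hsum1 : ∑ i ∈ V, ∫ t, ‖D i t‖ ^ 2 * g t ≤ C₁ * Real.pi := by
    rw [← integral_finsetSum _ (fun i _ => hD2i i)]
    calc ∫ t, ∑ i ∈ V, ‖D i t‖ ^ 2 * g t ≤ ∫ t, C₁ * g t := by
          refine integral_mono (integrable_finsetSum _ fun i _ => hD2i i) (hgint.const_mul C₁) fun t => ?_
          simp only
          rw [← Finset.sum_mul]
          apply mul_le_mul_of_nonneg_right _ (hg0 t)
          exact (Finset.sum_le_sum_of_subset_of_nonneg (Finset.subset_univ _)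
            fun _ _ _ => sq_nonneg _).trans (hDm t)
      _ = C₁ * ∫ t, g t := integral_const_mul _ _
      _ ≤ _ := mul_le_mul_of_nonneg_left int_g_le hC₁.le
  have hsum2 : ∑ i ∈ V, ∫ t, ‖P i t‖ * ((1 + |t|) ^ B)⁻¹ ≤ G * Real.pi := by
    rw [← integral_finsetSum _ (fun i _ => hPi i)]
    calc ∫ t, ∑ i ∈ V, ‖P i t‖ * ((1 + |t|) ^ B)⁻¹ ≤ ∫ t, G * g t := by
          refine integral_mono (integrable_finsetSum _ fun i _ => hPi i) (hgint.const_mul G) fun t => ?_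
          simp only
          rw [← Finset.sum_mul, ← hωg2 t, ← mul_assoc]
          exact mul_le_mul_of_nonneg_right (hPm t V) (by positivity)
      _ = G * ∫ t, g t := integral_const_mul _ _
      _ ≤ _ := mul_le_mul_of_nonneg_left int_g_le hG0
  have hcard : (V.card : ℝ) ≤ E₁ ^ 2 * Real.pi * (C₁ * Real.pi) + E₂ * (G * Real.pi) := by
    calc (V.card : ℝ) = ∑ _i ∈ V, (1 : ℝ) := by rw [Finset.sum_const, nsmul_eq_mul, mul_one]
      _ ≤ ∑ i ∈ V, (E₁ ^ 2 * Real.pi * (∫ t, ‖D i t‖ ^ 2 * g t) +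
          E₂ * ∫ t, ‖P i t‖ * ((1 + |t|) ^ B)⁻¹) := Finset.sum_le_sum hone
      _ = E₁ ^ 2 * Real.pi * (∑ i ∈ V, ∫ t, ‖D i t‖ ^ 2 * g t) +
          E₂ * ∑ i ∈ V, ∫ t, ‖P i t‖ * ((1 + |t|) ^ B)⁻¹ := by
          rw [Finset.sum_add_distrib, ← Finset.mul_sum, ← Finset.mul_sum]
      _ ≤ _ := by gcongr
  refine hcard.trans ?_
  have hT1 : (1 : ℝ) ≤ (1 + T) ^ B := one_le_pow₀ (by linarith)
  have hf1 : E₁ ^ 2 ≤ a₁ ^ 2 * (1 + T) ^ (2 * B) * (X ^ θ * N ^ (8 * η)) := by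
    have e1 : (X ^ (y * (κ - σ))) ^ 2 ≤ X ^ θ * N ^ (8 * η) := by
      have e2 : (X ^ (y * (κ - σ))) ^ 2 = X ^ θ * X ^ (y * (4 * η)) := by
        rw [← Real.rpow_natCast, ← Real.rpow_mul hX0.le, ← Real.rpow_add hX0, hθy, hκ]
        congr 1
        push_cast
        ring
      rw [e2]
      apply mul_le_mul_of_nonneg_left _ (by positivity)
      calc X ^ (y * (4 * η)) ≤ X ^ (8 * η) := by
            apply Real.rpow_le_rpow_of_exponent_le hNd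
            nlinarith
        _ ≤ N ^ (8 * η) := Real.rpow_le_rpow hX0.le hXN (by positivity)
    calc E₁ ^ 2 = a₁ ^ 2 * ((1 + T) ^ B) ^ 2 * (X ^ (y * (κ - σ))) ^ 2 := by rw [hE₁]; ring
      _ ≤ a₁ ^ 2 * ((1 + T) ^ B) ^ 2 * (X ^ θ * N ^ (8 * η)) := by gcongr
      _ = _ := by
          rw [← pow_mul]
          congr 3
          ring
  have hf2 : E₂ * G ≤ a₂ * √C₂ * √C₃ * (1 + T) ^ (2 * B) * (X ^ θ * N ^ (8 * η)) := by
    have e1 : X ^ (-(y * (σ - 1 / 2))) * X = X ^ θ := by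
      nth_rewrite 2 [← Real.rpow_one X]
      rw [← Real.rpow_add hX0, hθy2]
      congr 1
      ring
    have e2 : N ^ η ≤ N ^ (8 * η) := Real.rpow_le_rpow_of_exponent_le hNf (by linarith)
    have e3 : (1 + T) ^ B ≤ (1 + T) ^ (2 * B) := pow_le_pow_right₀ (by linarith) (by omega)
    calc E₂ * G = a₂ * √C₂ * √C₃ * (1 + T) ^ B * ((X ^ (-(y * (σ - 1 / 2))) * X) * N ^ η) := by
          rw [hE₂, hGdef]; ring
      _ = a₂ * √C₂ * √C₃ * (1 + T) ^ B * (X ^ θ * N ^ η) := by rw [e1]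
      _ ≤ _ := by gcongr
  calc E₁ ^ 2 * Real.pi * (C₁ * Real.pi) + E₂ * (G * Real.pi)
      = E₁ ^ 2 * (Real.pi ^ 2 * C₁) + E₂ * G * Real.pi := by ring
    _ ≤ (a₁ ^ 2 * (1 + T) ^ (2 * B) * (X ^ θ * N ^ (8 * η))) * (Real.pi ^ 2 * C₁) +
        (a₂ * √C₂ * √C₃ * (1 + T) ^ (2 * B) * (X ^ θ * N ^ (8 * η))) * Real.pi := by gcongr
    _ = _ := by ring

end Pool.Agent.A856.ZD
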