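import Pool.Agent.A856.ZD.Cnt

/-!
# Zero density in cosets of ray class characters

Owner helper856 (zeros of Hecke L-functions in thin cosets).
-/

set_option autoImplicit false
set_option linter.unusedSectionVars false
set_option linter.unusedVariables false
set_option maxHeartbeats 4000000

open NumberField Complex Filter Topology Set MeasureTheory

namespace Pool.Agent.A856.ZD

open Pool.Agent.Y773 (LI TPos)
open Pool.Agent.Y773.G
open Pool.Agent.A856.HW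

variable {K : Type} [Field K] [NumberField K]

/-- the number of characters in a family -/
lemma card_fam (K : Type) [Field K] [NumberField K] : ∃ C : ℝ, 0 < C ∧
    ∀ (𝔣 𝔡 : Ideal (𝓞 K)) (e : InfinitePlace K → ℕ) (I : Type) [Fintype I]
      (ψ : I → Ideal (𝓞 K) →*₀ ℂ), Fam 𝔣 𝔡 e ψ → 𝔣 ≠ ⊥ → 𝔣 ≤ 𝔡 → 𝔡 ^ 3 ≤ 𝔣 →
      (Fintype.card I : ℝ) ≤ C * (Ideal.absNorm 𝔡 : ℝ) := by
  obtain ⟨C, hC, h⟩ := ls_fin K
  refine ⟨2 * C, by positivity, ?_⟩
  intro 𝔣 𝔡 e I hI ψ hF hf0 h1 h3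
  have hd0 : 𝔡 ≠ ⊥ := fun h5 => hf0 (by rw [h5] at h1; exact le_bot_iff.mp h1)
  have hNd := one_le_absNorm hd0
  have h5 := h 𝔣 𝔡 e I ψ hF hf0 h1 h3 1 le_rfl {⊤} (by
    intro 𝔞 h𝔞
    rw [Finset.mem_singleton.mp h𝔞, Ideal.absNorm_top, Nat.cast_one]) (fun _ => 1)
  have h6 : ∀ i, ψ i (⊤ : Ideal (𝓞 K)) = 1 := by
    intro i
    rw [← Ideal.one_eq_top]
    exact map_one (ψ i)
  simp only [Finset.sum_singleton, h6, one_mul, norm_one, one_pow, Finset.sum_const,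
    Finset.card_univ, nsmul_eq_mul, mul_one, Finset.card_singleton, Nat.cast_one] at h5
  nlinarith

/-- **zero density for a family, all abscissas** -/
theorem zd_fam' (K : Type) [Field K] [NumberField K] {ε : ℝ} (hε : 0 < ε) :
    ∃ C : ℝ, 0 < C ∧ ∀ (𝔣 𝔡 : Ideal (𝓞 K)) (e : InfinitePlace K → ℕ) (I : Type) [Fintype I]
      (ψ : I → Ideal (𝓞 K) →*₀ ℂ), Fam 𝔣 𝔡 e ψ → 𝔣 ≠ ⊥ → 𝔣 ≤ 𝔡 → 𝔡 ^ 3 ≤ 𝔣 →
      ∀ F : I → ℂ → ℂ, (∀ i, Differentiable ℂ (F i)) →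
        (∀ i, ∀ s : ℂ, 1 < s.re → F i s = LI (ψ i) s) →
      ∀ σ T : ℝ, 1 / 2 ≤ σ → σ ≤ 1 → 0 ≤ T → ∀ V : Finset I,
        (∀ i ∈ V, ∃ ρ : ℂ, F i ρ = 0 ∧ σ ≤ ρ.re ∧ |ρ.im| ≤ T) →
        (V.card : ℝ) ≤ C * (1 + T) ^ (6 * Module.finrank ℚ K + 4) *
          ((Ideal.absNorm 𝔡 : ℝ) ^ (4 * (1 - σ) / (3 - 2 * σ)) * (Ideal.absNorm 𝔣 : ℝ) ^ ε) := by
  set η : ℝ := min (ε / 8) (1 / 4) with hη
  have hη0 : 0 < η := by
    rw [hη]
    apply lt_min
    · positivity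
    · norm_num
  have hη1 : η ≤ 1 / 4 := min_le_right _ _
  have hη2 : 8 * η ≤ ε := by
    have : η ≤ ε / 8 := min_le_left _ _
    linarith
  obtain ⟨C₁, hC₁, h1⟩ := zd_fam K hη0 hη1
  obtain ⟨C₂, hC₂, h2⟩ := card_fam K
  obtain ⟨A, hA, hdir⟩ := Pool.Agent.Y772.DK.t_dirK K
  refine ⟨C₁ + C₂, by positivity, ?_⟩
  intro 𝔣 𝔡 e I hI ψ hF hf0 hd1 hd3 F hFd hFL σ T hσ hσ1 hT V hV
  have hd0 : 𝔡 ≠ ⊥ := fun h5 => hf0 (by rw [h5] at hd1; exact le_bot_iff.mp hd1)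
  have hNd := one_le_absNorm hd0
  have hNf := one_le_absNorm hf0
  set X : ℝ := (Ideal.absNorm 𝔡 : ℝ) with hX
  set N : ℝ := (Ideal.absNorm 𝔣 : ℝ) with hN
  have hX0 : 0 < X := by linarith
  have hN0 : 0 < N := by linarith
  have hXN : X ≤ N := by
    have h5 : Ideal.absNorm 𝔡 ∣ Ideal.absNorm 𝔣 := map_dvd Ideal.absNorm (Ideal.dvd_iff_le.mpr hd1)
    have h6 : 0 < Ideal.absNorm 𝔣 := Nat.pos_of_ne_zero fun h => hf0 (Ideal.absNorm_eq_zero_iff.mp h)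
    rw [hX, hN]
    exact_mod_cast Nat.le_of_dvd h6 h5
  set θ : ℝ := 4 * (1 - σ) / (3 - 2 * σ) with hθ
  have hNε : N ^ (8 * η) ≤ N ^ ε := Real.rpow_le_rpow_of_exponent_le hNf hη2
  have hT1 : (1 : ℝ) ≤ (1 + T) ^ (6 * Module.finrank ℚ K + 4) := one_le_pow₀ (by linarith)
  have hre : ∀ i, ∀ ρ : ℂ, F i ρ = 0 → ρ.re ≤ 1 := by
    intro i ρ hρ
    by_contra hcon
    push Not at hcon
    have h5 := (hdir (ψ i) (fun 𝔞 => (hF.mod i).norm_le_one 𝔞)).2.2.1 ρ hcon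
    rw [← hFL i ρ hcon] at h5
    exact h5 hρ
  rcases le_total (1 / 2 + η) σ with h5 | h5
  · have h6 := h1 𝔣 𝔡 e I ψ hF hf0 hd1 hd3 F hFd hFL σ T h5 hσ1 hT V (fun i hi => by
      obtain ⟨ρ, p1, p2, p3⟩ := hV i hi
      exact ⟨ρ, p1, p2, hre i ρ p1, p3⟩)
    refine h6.trans ?_
    have e1 : 2 * (3 * Module.finrank ℚ K + 2) = 6 * Module.finrank ℚ K + 4 := by ring
    rw [e1]
    have e2 : C₁ ≤ C₁ + C₂ := by linarith
    gcongr
  · have h6 := h2 𝔣 𝔡 e I ψ hF hf0 hd1 hd3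
    have h7 : (V.card : ℝ) ≤ Fintype.card I := by exact_mod_cast Finset.card_le_univ V
    have h8 : X ≤ X ^ θ * N ^ ε := by
      have h32 : 0 < 3 - 2 * σ := by linarith
      have e1 : 1 - θ ≤ 8 * η := by
        have e2 : 1 - θ = (2 * σ - 1) / (3 - 2 * σ) := by
          rw [hθ, eq_div_iff h32.ne', sub_mul, div_mul_cancel₀ _ h32.ne']
          ring
        rw [e2, div_le_iff₀ h32]
        nlinarith
      have e3 : X ^ (1 - θ) ≤ N ^ ε := by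
        calc X ^ (1 - θ) ≤ X ^ (8 * η) := Real.rpow_le_rpow_of_exponent_le hNd e1
          _ ≤ N ^ (8 * η) := Real.rpow_le_rpow hX0.le hXN (by positivity)
          _ ≤ _ := hNε
      calc X = X ^ θ * X ^ (1 - θ) := by
            rw [← Real.rpow_add hX0]
            have : θ + (1 - θ) = 1 := by ring
            rw [this, Real.rpow_one]
        _ ≤ _ := mul_le_mul_of_nonneg_left e3 (by positivity)
    calc (V.card : ℝ) ≤ C₂ * X := h7.trans h6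
      _ ≤ C₂ * (X ^ θ * N ^ ε) := mul_le_mul_of_nonneg_left h8 hC₂.le
      _ ≤ (C₁ + C₂) * (1 + T) ^ (6 * Module.finrank ℚ K + 4) * (X ^ θ * N ^ ε) := by
          apply mul_le_mul_of_nonneg_right _ (by positivity)
          nlinarith

open Classical in
/-- **zero density in cosets of ray class characters** -/
theorem zd_coset (K : Type) [Field K] [NumberField K] {ε : ℝ} (hε : 0 < ε) :
    ∃ C : ℝ, 0 < C ∧ ∀ (𝔣 𝔡 : Ideal (𝓞 K)), 𝔣 ≠ ⊤ → 𝔡 ∣ 𝔣 → 𝔣 ∣ 𝔡 ^ 3 → ∀ (I : Type) [Fintype I]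
      (ψ : I → Ideal (𝓞 K) →*₀ ℂ), (∀ i, IsPrimChar K 𝔣 (ψ i)) → Function.Injective ψ →
      (∀ i j, ∀ a : 𝓞 K, a ≠ 0 → a - 1 ∈ 𝔡 → TPos K a →
        ψ i (Ideal.span {a}) = ψ j (Ideal.span {a})) →
      ∃ F : I → ℂ → ℂ, (∀ i, Differentiable ℂ (F i)) ∧
        (∀ i, ∀ s : ℂ, 1 < s.re → F i s = LI (ψ i) s) ∧
        ∀ σ T : ℝ, 1 / 2 ≤ σ → σ ≤ 1 → 0 ≤ T →
          ((Finset.univ.filter (fun i => ∃ ρ : ℂ, F i ρ = 0 ∧ σ ≤ ρ.re ∧ |ρ.im| ≤ T)).card : ℝ) ≤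
          C * (1 + T) ^ (6 * Module.finrank ℚ K + 4) *
            ((Ideal.absNorm 𝔡 : ℝ) ^ (4 * (1 - σ) / (3 - 2 * σ)) * (Ideal.absNorm 𝔣 : ℝ) ^ ε) := by
  obtain ⟨C, hC, hL⟩ := zd_fam' K hε
  refine ⟨Fintype.card (InfinitePlace K → Fin 2) * C, by positivity, ?_⟩
  intro 𝔣 𝔡 htop hd1 hd3 I hI ψ hp hinj hcong
  rw [Ideal.dvd_iff_le] at hd1 hd3
  choose e he using fun i => prim_mod (hp i) htop
  have hent : ∀ i, ∃ F : ℂ → ℂ, Differentiable ℂ F ∧ ∀ s : ℂ, 1 < s.re → F s = LI (ψ i) s := by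
    intro i
    have hne : (⊤ : Ideal (𝓞 K)) ≠ 𝔣 := fun h1 => htop h1.symm
    obtain ⟨x, -, -, hx, hx2⟩ := (hp i).prim ⊤ (by rw [← Ideal.one_eq_top]; exact one_dvd _) hne
    exact LI_entire (he i) ⟨_, hx, hx2⟩
  choose F hF hFL using hent
  refine ⟨F, hF, hFL, fun σ T hσ hσ1 hT => ?_⟩
  set R : ℝ := C * (1 + T) ^ (6 * Module.finrank ℚ K + 4) *
            ((Ideal.absNorm 𝔡 : ℝ) ^ (4 * (1 - σ) / (3 - 2 * σ)) * (Ideal.absNorm 𝔣 : ℝ) ^ ε) with hR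
  have hR0 : 0 ≤ R := by positivity
  set V : Finset I := Finset.univ.filter (fun i => ∃ ρ : ℂ, F i ρ = 0 ∧ σ ≤ ρ.re ∧ |ρ.im| ≤ T) with hVdef
  let τ : I → (InfinitePlace K → Fin 2) := fun i w => ⟨e i w, Nat.lt_succ_of_le ((he i).sig_le w)⟩
  have hτ : ∀ i j, τ i = τ j → e i = e j := by
    intro i j hij
    funext w
    have := congrFun hij w
    exact congrArg Fin.val this
  have hcls : ∀ s : InfinitePlace K → Fin 2, ((V.filter (fun i => τ i = s)).card : ℝ) ≤ R := by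
    intro s
    by_cases hemp : IsEmpty {i // τ i = s}
    · have : V.filter (fun i => τ i = s) = ∅ := by
        rw [Finset.filter_eq_empty_iff]
        intro i _ hi
        exact hemp.false ⟨i, hi⟩
      rw [this, Finset.card_empty, Nat.cast_zero]
      exact hR0
    · rw [not_isEmpty_iff] at hemp
      obtain ⟨i₀⟩ := hemp
      have hee : ∀ i : {i // τ i = s}, e i.1 = e i₀.1 := fun i => hτ _ _ (i.2.trans i₀.2.symm)
      have hfam : Fam 𝔣 𝔡 (e i₀.1) (fun i : {i // τ i = s} => ψ i.1) := by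
        refine ⟨fun i => hp i.1, fun i => ?_, fun i j hij => Subtype.ext (hinj hij), ?_⟩
        · rw [← hee i]
          exact he i.1
        · intro i j a ha
          obtain ⟨c, hc0, hca, hcp⟩ := exists_tpos_add (hp i₀.1).ne_bot a
          have hmi : IsModChar 𝔣 (e i₀.1) (ψ i.1) := by rw [← hee i]; exact he i.1
          have hmj : IsModChar 𝔣 (e i₀.1) (ψ j.1) := by rw [← hee j]; exact he j.1
          have h1 := (chr_chi (hp i.1) hmi).per c a hca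
          have h2 := (chr_chi (hp j.1) hmj).per c a hca
          change chi (ψ i.1) (e i₀.1) a = chi (ψ j.1) (e i₀.1) a
          rw [← h1, ← h2]
          unfold chi
          have h3 : c - 1 ∈ 𝔡 := by
            have h4 := 𝔡.add_mem (hd1 hca) ha
            have h5 : c - a + (a - 1) = c - 1 := by ring
            rwa [h5] at h4
          rw [hcong i.1 j.1 c hc0 h3 hcp]
      have hV' := hL 𝔣 𝔡 (e i₀.1) {i // τ i = s} (fun i => ψ i.1) hfam (hp i₀.1).ne_bot hd1 hd3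
        (fun i => F i.1) (fun i => hF i.1) (fun i => hFL i.1) σ T hσ hσ1 hT
        (Finset.subtype (fun i => τ i = s) V) (by
          intro i hi
          rw [Finset.mem_subtype] at hi
          exact (Finset.mem_filter.mp hi).2)
      rw [Finset.card_subtype] at hV'
      exact hV'
  have h1 : V.card = ∑ s : InfinitePlace K → Fin 2, (V.filter (fun i => τ i = s)).card :=
    Finset.card_eq_sum_card_fiberwise (fun i _ => Finset.mem_coe.mpr (Finset.mem_univ _))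
  calc (V.card : ℝ) = ∑ s : InfinitePlace K → Fin 2, ((V.filter (fun i => τ i = s)).card : ℝ) := by
        rw [h1]
        push_cast
        rfl
    _ ≤ ∑ s : InfinitePlace K → Fin 2, R := Finset.sum_le_sum fun s _ => hcls s
    _ = _ := by
        rw [Finset.sum_const, Finset.card_univ, nsmul_eq_mul, hR]
        ring

end Pool.Agent.A856.ZD
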