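import Pool.Agent.A856.ZD.Coef
import Pool.Agent.R399.TW.Shift

/-!
# Detecting zeros

Owner helper856 (zeros of Hecke L-functions in thin cosets).
-/

set_option autoImplicit false
set_option linter.unusedSectionVars false
set_option linter.unusedVariables false
set_option maxHeartbeats 4000000

open NumberField Complex Filter Topology Set MeasureTheory

namespace Pool.Agent.A856.ZD

open Pool.Agent.Y773 (LI rp mm mm_pos mm_mem Dd Dd_pos Dd_mem rp_ne_bot reps_rp)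
open Pool.Agent.Y773.G
open Pool.Agent.A856.HW
open Pool.Agent.R399.TW (pt pt_re pt_im pt_cont strip vshift Ph half_le_Ph kernel_id gauss_int norm_gauss
  bd_of_eventually)

variable {K : Type} [Field K] [NumberField K]

/-- lower bound for the Gamma function in a strip -/
lemma gamma_strip : ∃ c : ℝ, 0 < c ∧ ∀ w : ℂ, 1 / 4 ≤ w.re → w.re ≤ 3 / 2 →
    c * Real.exp (-((Real.pi / 2 + 1) * |w.im|)) ≤ ‖Complex.Gamma w‖ := by
  have hcont : ContinuousOn Real.Gamma (Icc (1 : ℝ) 3) := by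
    intro x hx
    have hx0 : 0 < x := by linarith [hx.1]
    refine (Real.differentiableAt_Gamma (fun m => ?_)).continuousAt.continuousWithinAt
    have : (0 : ℝ) ≤ m := Nat.cast_nonneg m
    linarith
  obtain ⟨x₁, hx₁, hmin⟩ := isCompact_Icc.exists_isMinOn
    (nonempty_Icc.2 (by norm_num : (1 : ℝ) ≤ 3)) hcont
  have hG1 : 0 < Real.Gamma x₁ := Real.Gamma_pos_of_pos (by linarith [hx₁.1])
  have hG2 : 0 < Real.Gamma (1 / 2) := Real.Gamma_pos_of_pos (by norm_num)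
  refine ⟨Real.Gamma x₁ / Real.Gamma (1 / 2) / 2, by positivity, fun w h1 h2 => ?_⟩
  set x : ℝ := w.re + 1 with hx
  have hp1 := Pool.Agent.H336R4.PF.taskP1 (1 / 2) x w.im (by norm_num) (by rw [hx]; linarith)
  have h3 : Real.Gamma x₁ ≤ Real.Gamma x := hmin ⟨by rw [hx]; linarith, by rw [hx]; linarith⟩
  have h4 := gamma_half w.im
  have hw : ((x : ℝ) : ℂ) + (w.im : ℂ) * Complex.I = w + 1 := by
    apply Complex.ext <;> simp [hx]
  rw [hw] at hp1
  have hw0 : w ≠ 0 := by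
    rintro rfl
    simp at h1
    linarith
  rw [Complex.Gamma_add_one w hw0, norm_mul] at hp1
  have hnw : ‖w‖ ≤ 2 * Real.exp |w.im| := by
    have h5 := Complex.norm_le_abs_re_add_abs_im w
    have h6 : |w.re| ≤ 3 / 2 := by
      rw [abs_le]; constructor <;> linarith
    have h7 := Real.add_one_le_exp |w.im|
    have h8 : 1 ≤ Real.exp |w.im| := Real.one_le_exp (abs_nonneg _)
    linarith
  have h9 : Real.Gamma x₁ * Real.exp (-(Real.pi / 2 * |w.im|)) ≤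
      2 * Real.exp |w.im| * ‖Complex.Gamma w‖ * Real.Gamma (1 / 2) := by
    calc Real.Gamma x₁ * Real.exp (-(Real.pi / 2 * |w.im|))
        ≤ Real.Gamma x * ‖Complex.Gamma (((1 / 2 : ℝ) : ℂ) + w.im * Complex.I)‖ := by
          have := Real.Gamma_pos_of_pos (show 0 < x by rw [hx]; linarith)
          gcongr
      _ = ‖Complex.Gamma (((1 / 2 : ℝ) : ℂ) + w.im * Complex.I)‖ * Real.Gamma x := mul_comm _ _
      _ ≤ ‖w‖ * ‖Complex.Gamma w‖ * Real.Gamma (1 / 2) := hp1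
      _ ≤ _ := by gcongr
  have h10 : Real.exp (-((Real.pi / 2 + 1) * |w.im|)) * Real.exp |w.im| =
      Real.exp (-(Real.pi / 2 * |w.im|)) := by
    rw [← Real.exp_add]
    congr 1
    ring
  rw [div_div, div_mul_eq_mul_div, div_le_iff₀ (by positivity)]
  rw [← h10] at h9
  have h11 := Real.exp_pos |w.im|
  have h12 : Real.exp |w.im| * (Real.Gamma x₁ * Real.exp (-((Real.pi / 2 + 1) * |w.im|))) ≤
      Real.exp |w.im| * (‖Complex.Gamma w‖ * (Real.Gamma (1 / 2) * 2)) := by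
    calc _ = Real.Gamma x₁ * (Real.exp (-((Real.pi / 2 + 1) * |w.im|)) * Real.exp |w.im|) := by ring
      _ ≤ _ := h9
      _ = _ := by ring
  exact le_of_mul_le_mul_left h12 h11

/-- growth of the inverse gamma factors -/
lemma gammaR_strip (e : ℕ) (he : e ≤ 1) : ∃ C : ℝ, 0 ≤ C ∧ ∀ z ∈ strip (1 / 2) 2,
    ‖(Complex.Gammaℝ (z + e))⁻¹‖ ≤ C * Real.exp (2 * |z.im|) := by
  obtain ⟨c, hc, h⟩ := gamma_strip
  refine ⟨c⁻¹ * Real.pi ^ (3 / 2 : ℝ), by positivity, fun z hz => ?_⟩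
  have he' : (e : ℝ) ≤ 1 := by exact_mod_cast he
  have he0 : (0 : ℝ) ≤ e := Nat.cast_nonneg e
  have hre : ((z + e) / 2).re = (z.re + e) / 2 := by simp
  have him : ((z + e) / 2).im = z.im / 2 := by simp
  have h1 := h ((z + e) / 2) (by rw [hre]; linarith [hz.1]) (by rw [hre]; linarith [hz.2])
  rw [him] at h1
  rw [Complex.Gammaℝ_def, norm_inv, norm_mul, mul_inv]
  have h2 : ‖(Real.pi : ℂ) ^ (-(z + e) / 2)‖⁻¹ ≤ Real.pi ^ (3 / 2 : ℝ) := by
    rw [Complex.norm_cpow_eq_rpow_re_of_pos Real.pi_pos, ← Real.rpow_neg Real.pi_pos.le]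
    apply Real.rpow_le_rpow_of_exponent_le (by linarith [Real.pi_gt_three])
    have : (-(z + e) / 2).re = -((z.re + e) / 2) := by
      rw [neg_div, Complex.neg_re, hre]
    rw [this]
    linarith [hz.2]
  have h3 : ‖Complex.Gamma ((z + e) / 2)‖⁻¹ ≤ c⁻¹ * Real.exp (2 * |z.im|) := by
    refine (inv_anti₀ (by positivity) h1).trans ?_
    rw [mul_inv, ← Real.exp_neg, neg_neg]
    apply mul_le_mul_of_nonneg_left _ (by positivity)
    apply Real.exp_le_exp.mpr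
    have h4 : |z.im / 2| = |z.im| / 2 := by rw [abs_div]; norm_num
    rw [h4]
    have h5 := Real.pi_le_four
    have h6 := abs_nonneg z.im
    nlinarith
  calc _ ≤ Real.pi ^ (3 / 2 : ℝ) * (c⁻¹ * Real.exp (2 * |z.im|)) :=
        mul_le_mul h2 h3 (by positivity) (by positivity)
    _ = _ := by ring

/-- a Mellin transform is bounded in strips -/
lemma mellin_bdd {f : ℝ → ℂ} (h : ∀ s, MellinConvergent f s) : ∃ C : ℝ, 0 ≤ C ∧
    ∀ z ∈ strip (1 / 2) 2, ‖mellin f z‖ ≤ C := by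
  have h1 := (h (1 / 2 : ℂ)).norm
  have h2 := (h (2 : ℂ)).norm
  refine ⟨∫ t in Ioi (0 : ℝ), (‖(t : ℂ) ^ ((1 / 2 : ℂ) - 1) • f t‖ + ‖(t : ℂ) ^ ((2 : ℂ) - 1) • f t‖),
    integral_nonneg fun t => by positivity, fun z hz => ?_⟩
  unfold mellin
  refine (norm_integral_le_integral_norm _).trans ?_
  refine setIntegral_mono_on (h z).norm (h1.add h2) measurableSet_Ioi fun t ht => ?_
  have ht0 : (0 : ℝ) < t := ht
  rw [norm_smul, norm_smul, norm_smul, Complex.norm_cpow_eq_rpow_re_of_pos ht0,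
    Complex.norm_cpow_eq_rpow_re_of_pos ht0, Complex.norm_cpow_eq_rpow_re_of_pos ht0, ← add_mul]
  apply mul_le_mul_of_nonneg_right _ (norm_nonneg _)
  have e1 : (z - 1).re = z.re - 1 := by simp
  have e2 : ((1 / 2 : ℂ) - 1).re = 1 / 2 - 1 := by norm_num
  have e3 : ((2 : ℂ) - 1).re = 2 - 1 := by norm_num
  rw [e1, e2, e3]
  rcases le_total 1 t with h | h
  · have h5 : t ^ (z.re - 1) ≤ t ^ ((2 : ℝ) - 1) :=
      Real.rpow_le_rpow_of_exponent_le h (by linarith [hz.2])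
    have : 0 ≤ t ^ ((1 / 2 : ℝ) - 1) := by positivity
    exact h5.trans (le_add_of_nonneg_left this)
  · have h5 : t ^ (z.re - 1) ≤ t ^ ((1 / 2 : ℝ) - 1) :=
      Real.rpow_le_rpow_of_exponent_ge ht0 h (by linarith [hz.1])
    have : 0 ≤ t ^ ((2 : ℝ) - 1) := by positivity
    exact h5.trans (le_add_of_nonneg_right this)

/-- growth of the L-function -/
lemma F_growth {𝔣 : Ideal (𝓞 K)} {e : InfinitePlace K → ℕ} {ψ : Ideal (𝓞 K) →*₀ ℂ}
    (hp : IsPrimChar K 𝔣 ψ) (h : IsModChar 𝔣 e ψ) {F : ℂ → ℂ} (hF : Differentiable ℂ F)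
    (hFL : ∀ s : ℂ, 1 < s.re → F s = LI ψ s) :
    ∃ A C : ℝ, 0 ≤ A ∧ 0 ≤ C ∧ ∀ z ∈ strip (1 / 2) 2, ‖F z‖ ≤ C * Real.exp (A * |z.im|) := by
  obtain ⟨C₀, hC₀, hL⟩ := L_eq K
  obtain ⟨V, hV, hfe⟩ := fam_fe K
  have hn : ∃ 𝔞, IsCoprime 𝔞 𝔣 ∧ ψ 𝔞 ≠ 1 := by
    have hne : (⊤ : Ideal (𝓞 K)) ≠ 𝔣 := fun h1 => h.ne_top h1.symm
    obtain ⟨x, -, -, hx, hx2⟩ := hp.prim ⊤ (by rw [← Ideal.one_eq_top]; exact one_dvd _) hne
    exact ⟨_, hx, hx2⟩
  have hN : ∀ c, Nice e (Ps ψ e (rp K c)) := fun c => h.nice (rp_ne_bot c)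
  obtain ⟨h1, -, -⟩ := hfe (rp K) reps_rp e ψ hN (mm (rp K) 𝔣) (Dd K) (mm_pos rp_ne_bot h.ne_bot)
    Dd_pos Dd_mem (fun c => h.per_m (rp_ne_bot c) (mm_mem _ _ c)) (h.const_zero hn)
  obtain ⟨C₁, hC₁, hM⟩ := mellin_bdd h1
  obtain ⟨D₀, hD₀, h0⟩ := gammaR_strip 0 (by norm_num)
  obtain ⟨D₁, hD₁, h1'⟩ := gammaR_strip 1 (by norm_num)
  set D := max D₀ D₁ with hD
  have hD0 : 0 ≤ D := hD₀.trans (le_max_left _ _)
  refine ⟨2 * Fintype.card (K →+* ℂ), C₀⁻¹ * (C₁ * D ^ Fintype.card (K →+* ℂ)), by positivity,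
    by positivity, fun z hz => ?_⟩
  rw [hL 𝔣 e ψ hp h F hF hFL z, norm_mul, norm_mul, norm_inv, Complex.norm_real, Real.norm_eq_abs,
    abs_of_pos hC₀, norm_prod]
  have h5 : ∀ φ : K →+* ℂ, ‖(Complex.Gammaℝ (z + ex e φ))⁻¹‖ ≤ D * Real.exp (2 * |z.im|) := by
    intro φ
    have h3 := ex_le h.sig_le φ
    obtain h4 | h4 : ex e φ = 0 ∨ ex e φ = 1 := by omega
    · rw [h4]
      refine (h0 z hz).trans ?_
      exact mul_le_mul_of_nonneg_right (le_max_left _ _) (Real.exp_pos _).le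
    · rw [h4]
      refine (h1' z hz).trans ?_
      exact mul_le_mul_of_nonneg_right (le_max_right _ _) (Real.exp_pos _).le
  have h6 : ∏ φ : K →+* ℂ, ‖(Complex.Gammaℝ (z + ex e φ))⁻¹‖ ≤
      D ^ Fintype.card (K →+* ℂ) * Real.exp (2 * Fintype.card (K →+* ℂ) * |z.im|) := by
    calc _ ≤ ∏ _φ : K →+* ℂ, (D * Real.exp (2 * |z.im|)) :=
          Finset.prod_le_prod (fun _ _ => norm_nonneg _) fun φ _ => h5 φ
      _ = _ := by
          rw [Finset.prod_const, Finset.card_univ, mul_pow, ← Real.exp_nat_mul]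
          congr 2
          ring
  calc C₀⁻¹ * (‖mellin (Ftot ψ e (rp K)) z‖ * ∏ φ : K →+* ℂ, ‖(Complex.Gammaℝ (z + ex e φ))⁻¹‖)
      ≤ C₀⁻¹ * (C₁ * (D ^ Fintype.card (K →+* ℂ) *
        Real.exp (2 * Fintype.card (K →+* ℂ) * |z.im|))) := by
        have := hM z hz
        have h7 : 0 ≤ ∏ φ : K →+* ℂ, ‖(Complex.Gammaℝ (z + ex e φ))⁻¹‖ :=
          Finset.prod_nonneg fun _ _ => norm_nonneg _
        gcongr
    _ = _ := by ring

/-- numerator of the kernel -/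
noncomputable def KN (L : ℝ) (ρ z : ℂ) : ℂ := cexp ((z - ρ) ^ 2 + (L : ℂ) * (z - ρ))

lemma sub_eq_pt (x t : ℝ) (ρ : ℂ) : pt x t - ρ = pt (x - ρ.re) (t - ρ.im) := by
  apply Complex.ext <;> simp

lemma eq_pt (z : ℂ) : z = pt z.re z.im := by apply Complex.ext <;> simp

lemma norm_KN (L : ℝ) (ρ : ℂ) (x t : ℝ) : ‖KN L ρ (pt x t)‖ =
    Real.exp ((x - ρ.re) ^ 2 + L * (x - ρ.re)) * Real.exp (-(t - ρ.im) ^ 2) := by
  unfold KN
  rw [sub_eq_pt, norm_gauss]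

lemma KN_diff (L : ℝ) (ρ : ℂ) : Differentiable ℂ (KN L ρ) := by
  unfold KN; fun_prop

/-- the Gaussian beats exponentials -/
lemma gdec (A γ : ℝ) : ∃ C : ℝ, 0 ≤ C ∧ ∀ t : ℝ,
    Real.exp (A * |t|) * Real.exp (-(t - γ) ^ 2) ≤ C * Real.exp (-|t|) := by
  refine ⟨Real.exp ((|A| + 1) ^ 2 / 4 + (|A| + 1) * |γ|), (Real.exp_pos _).le, fun t => ?_⟩
  rw [← Real.exp_add, ← Real.exp_add]
  apply Real.exp_le_exp.2
  have h1 : |t| ≤ |t - γ| + |γ| := by
    have := abs_add_le (t - γ) γ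
    simpa using this
  have h2 : A ≤ |A| := le_abs_self A
  have h3 : 0 ≤ |A| := abs_nonneg A
  have h4 : (t - γ) ^ 2 = |t - γ| ^ 2 := (sq_abs _).symm
  rw [h4]
  have h5 : 0 ≤ |t| := abs_nonneg t
  have h6 : (A + 1) * |t| ≤ (|A| + 1) * |t| := by nlinarith
  have h7 : (|A| + 1) * |t| ≤ (|A| + 1) * (|t - γ| + |γ|) := by nlinarith
  nlinarith [sq_nonneg ((|A| + 1) / 2 - |t - γ|)]

lemma KN_bd (L A : ℝ) {ρ : ℂ} (h1 : 1 / 2 < ρ.re) (h2 : ρ.re ≤ 1) : ∃ C : ℝ, 0 ≤ C ∧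
    ∀ z ∈ strip (1 / 2) 2, Real.exp (A * |z.im|) * ‖KN L ρ z‖ ≤ C * Real.exp (-|z.im|) := by
  obtain ⟨C, hC0, hC⟩ := gdec A ρ.im
  refine ⟨C * Real.exp (9 + 3 * |L|), by positivity, fun z hz => ?_⟩
  have h3 := norm_KN L ρ z.re z.im
  rw [← eq_pt] at h3
  rw [h3]
  have h4 := hC z.im
  have h5 : Real.exp ((z.re - ρ.re) ^ 2 + L * (z.re - ρ.re)) ≤ Real.exp (9 + 3 * |L|) := by
    apply Real.exp_le_exp.2
    have h6 : |z.re - ρ.re| ≤ 3 := by
      rw [abs_le]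
      constructor <;> linarith [hz.1, hz.2]
    have h7 : (z.re - ρ.re) ^ 2 ≤ 9 := by
      rw [← sq_abs]
      nlinarith [abs_nonneg (z.re - ρ.re)]
    have h8 : L * (z.re - ρ.re) ≤ 3 * |L| := by
      have := le_abs_self (L * (z.re - ρ.re))
      rw [abs_mul] at this
      nlinarith [abs_nonneg L]
    linarith
  calc Real.exp (A * |z.im|) * (Real.exp ((z.re - ρ.re) ^ 2 + L * (z.re - ρ.re)) *
        Real.exp (-(z.im - ρ.im) ^ 2))
      = (Real.exp (A * |z.im|) * Real.exp (-(z.im - ρ.im) ^ 2)) *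
        Real.exp ((z.re - ρ.re) ^ 2 + L * (z.re - ρ.re)) := by ring
    _ ≤ (C * Real.exp (-|z.im|)) * Real.exp (9 + 3 * |L|) := by gcongr
    _ = _ := by ring

/-- the kernel on a vertical line to the right -/
lemma Kr_line (L : ℝ) {ρ : ℂ} {κ : ℝ} (h2 : ρ.re < κ) :
    Integrable (fun t : ℝ => KN L ρ (pt κ t) / (pt κ t - ρ)) ∧
      ∫ t : ℝ, KN L ρ (pt κ t) / (pt κ t - ρ) = 2 * Real.pi * ((Ph L : ℝ) : ℂ) := by
  have hc : 0 < κ - ρ.re := by linarith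
  have e1 : (fun t : ℝ => KN L ρ (pt κ t) / (pt κ t - ρ)) = fun t : ℝ => (fun s : ℝ =>
      cexp (pt (κ - ρ.re) s ^ 2 + (L : ℂ) * pt (κ - ρ.re) s) / pt (κ - ρ.re) s) (t - ρ.im) := by
    funext t
    unfold KN
    rw [sub_eq_pt]
  have hne : ∀ s : ℝ, pt (κ - ρ.re) s ≠ 0 := by
    intro s h
    have := congrArg Complex.re h
    simp at this
    linarith
  have hint : Integrable (fun s : ℝ =>
      cexp (pt (κ - ρ.re) s ^ 2 + (L : ℂ) * pt (κ - ρ.re) s) / pt (κ - ρ.re) s) := by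
    refine ((gauss_int (κ - ρ.re) L).norm.mul_const (κ - ρ.re)⁻¹).mono' ?_ (Eventually.of_forall fun s => ?_)
    · have h3 : Continuous fun s : ℝ =>
          cexp (pt (κ - ρ.re) s ^ 2 + (L : ℂ) * pt (κ - ρ.re) s) / pt (κ - ρ.re) s := by
        refine Continuous.div ?_ (pt_cont _) hne
        have := pt_cont (κ - ρ.re)
        fun_prop
      exact h3.aestronglyMeasurable
    · rw [norm_div, div_eq_mul_inv]
      apply mul_le_mul_of_nonneg_left _ (norm_nonneg _)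
      apply inv_anti₀ hc
      have h3 := (le_abs_self _).trans (Complex.abs_re_le_norm (pt (κ - ρ.re) s))
      rwa [pt_re] at h3
  rw [e1]
  refine ⟨hint.comp_sub_right ρ.im, ?_⟩
  rw [integral_sub_right_eq_self (fun s : ℝ =>
      cexp (pt (κ - ρ.re) s ^ 2 + (L : ℂ) * pt (κ - ρ.re) s) / pt (κ - ρ.re) s)]
  exact kernel_id hc L

/-- **detecting a zero** -/
theorem detect {𝔣 : Ideal (𝓞 K)} {e : InfinitePlace K → ℕ} {ψ : Ideal (𝓞 K) →*₀ ℂ}
    (hp : IsPrimChar K 𝔣 ψ) (h : IsModChar 𝔣 e ψ) {F : ℂ → ℂ} (hF : Differentiable ℂ F)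
    (hFL : ∀ s : ℂ, 1 < s.re → F s = LI ψ s) (X : ℝ) {L κ : ℝ} (hL : 0 ≤ L) (hκ : 1 < κ) (hκ2 : κ ≤ 2)
    {ρ : ℂ} (hρ1 : 1 / 2 < ρ.re) (hρ2 : ρ.re ≤ 1) (hρ : F ρ = 0) :
    Real.pi ≤ (∫ t : ℝ, ‖F (pt κ t) * Mo X ψ (pt κ t) - 1‖ * ‖KN L ρ (pt κ t) / (pt κ t - ρ)‖) +
      ∫ t : ℝ, ‖F (pt (1 / 2) t) * Mo X ψ (pt (1 / 2) t)‖ *
        ‖KN L ρ (pt (1 / 2) t) / (pt (1 / 2) t - ρ)‖ := by
  obtain ⟨A, C, hA, hC, hgr⟩ := F_growth hp h hF hFL
  have hMd := differentiable_Mo X ψ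
  -- the mollifier is bounded in the strip
  obtain ⟨M, hM0, hM⟩ : ∃ M : ℝ, 0 ≤ M ∧ ∀ z ∈ strip (1 / 2) 2, ‖Mo X ψ z‖ ≤ M := by
    refine ⟨∑ 𝔞 ∈ TX K X, 1, Finset.sum_nonneg fun _ _ => by norm_num, fun z hz => ?_⟩
    rw [Mo_eq]
    refine (norm_sum_le _ _).trans (Finset.sum_le_sum fun 𝔞 h𝔞 => ?_)
    have h0 := (TX_le h𝔞).1
    rw [norm_mul, norm_bM h0]
    have h1 : (Ideal.absNorm 𝔞 : ℝ) ^ (-z.re) ≤ 1 :=
      Real.rpow_le_one_of_one_le_of_nonpos (one_le_absNorm h0) (by linarith [hz.1])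
    exact mul_le_one₀ h1 (norm_nonneg _) (h.norm_le_one 𝔞)
  set f : ℂ → ℂ := fun z => dslope F ρ z * Mo X ψ z * KN L ρ z with hf
  have hds : Differentiable ℂ (dslope F ρ) := by
    rw [← differentiableOn_univ]
    exact (Complex.differentiableOn_dslope Filter.univ_mem).mpr hF.differentiableOn
  have hfd : Differentiable ℂ f := (hds.mul hMd).mul (KN_diff L ρ)
  have hval : ∀ z, z ≠ ρ → f z = F z * Mo X ψ z * (KN L ρ z / (z - ρ)) := by
    intro z hz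
    rw [hf]
    simp only
    rw [dslope_of_ne F hz, slope_def_field, hρ, sub_zero]
    ring
  obtain ⟨C₁, hC₁, hKN⟩ := KN_bd L A hρ1 hρ2
  obtain ⟨C₂, hbd⟩ := bd_of_eventually (f := f) (a := 1 / 2) (b := 2) (C := C * M * C₁)
    (T₀ := |ρ.im| + 1) hfd.continuous.continuousOn (by
      intro z hz hT
      have h1 : 1 ≤ |z.im - ρ.im| := by
        have := abs_sub_abs_le_abs_sub z.im ρ.im
        linarith
      have h2 : 1 ≤ ‖z - ρ‖ := by
        refine h1.trans ?_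
        have := Complex.abs_im_le_norm (z - ρ)
        rwa [Complex.sub_im] at this
      have hzρ : z ≠ ρ := by
        rintro rfl
        rw [sub_self, norm_zero] at h2
        linarith
      rw [hval z hzρ, norm_mul, norm_mul, norm_div]
      have h3 : ‖KN L ρ z‖ / ‖z - ρ‖ ≤ ‖KN L ρ z‖ := div_le_self (norm_nonneg _) h2
      calc ‖F z‖ * ‖Mo X ψ z‖ * (‖KN L ρ z‖ / ‖z - ρ‖)
          ≤ (C * Real.exp (A * |z.im|)) * M * ‖KN L ρ z‖ := by
            have := hgr z hz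
            have := hM z hz
            gcongr
        _ = C * M * (Real.exp (A * |z.im|) * ‖KN L ρ z‖) := by ring
        _ ≤ C * M * (C₁ * Real.exp (-|z.im|)) := mul_le_mul_of_nonneg_left (hKN z hz) (by positivity)
        _ = _ := by ring)
  have hsub : strip (1 / 2) κ ⊆ strip (1 / 2) 2 := fun z hz => ⟨hz.1, hz.2.trans hκ2⟩
  have hshift := vshift (f := f) (a := 1 / 2) (b := κ) (by linarith) hfd.continuous.continuousOn
    hfd.differentiableOn (C := C₂) (fun z hz => hbd z (hsub hz))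
  have hne1 : ∀ t, pt κ t ≠ ρ := by
    intro t ht
    have := congrArg Complex.re ht
    rw [pt_re] at this
    linarith
  have hne2 : ∀ t, pt (1 / 2) t ≠ ρ := by
    intro t ht
    have := congrArg Complex.re ht
    rw [pt_re] at this
    linarith
  obtain ⟨hKi, hKv⟩ := Kr_line L (ρ := ρ) (κ := κ) (by linarith)
  -- integrability
  have hi1 : Integrable fun t : ℝ => f (pt κ t) :=
    Pool.Agent.R399.TW.vert_int (by linarith) hκ2 hfd.continuous.continuousOn hbd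
  have hi2 : Integrable fun t : ℝ => f (pt (1 / 2) t) :=
    Pool.Agent.R399.TW.vert_int le_rfl (by norm_num) hfd.continuous.continuousOn hbd
  have hD : ∀ t, f (pt κ t) = KN L ρ (pt κ t) / (pt κ t - ρ) +
      (F (pt κ t) * Mo X ψ (pt κ t) - 1) * (KN L ρ (pt κ t) / (pt κ t - ρ)) := by
    intro t
    rw [hval _ (hne1 t)]
    ring
  have hi3 : Integrable fun t : ℝ => (F (pt κ t) * Mo X ψ (pt κ t) - 1) * (KN L ρ (pt κ t) / (pt κ t - ρ)) := by
    refine (hi1.sub hKi).congr (Eventually.of_forall fun t => ?_)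
    simp only [Pi.sub_apply]
    rw [hD t]
    ring
  have h5 : ∫ t : ℝ, f (pt κ t) = 2 * Real.pi * ((Ph L : ℝ) : ℂ) +
      ∫ t : ℝ, (F (pt κ t) * Mo X ψ (pt κ t) - 1) * (KN L ρ (pt κ t) / (pt κ t - ρ)) := by
    rw [← hKv, ← integral_add hKi hi3]
    exact integral_congr_ae (Eventually.of_forall fun t => hD t)
  have h6 : 2 * Real.pi * Ph L ≤ ‖∫ t : ℝ, (F (pt κ t) * Mo X ψ (pt κ t) - 1) *
      (KN L ρ (pt κ t) / (pt κ t - ρ))‖ + ‖∫ t : ℝ, f (pt (1 / 2) t)‖ := by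
    have h7 : (2 * Real.pi * ((Ph L : ℝ) : ℂ)) = (∫ t : ℝ, f (pt (1 / 2) t)) -
        ∫ t : ℝ, (F (pt κ t) * Mo X ψ (pt κ t) - 1) * (KN L ρ (pt κ t) / (pt κ t - ρ)) := by
      rw [hshift, h5]
      ring
    have h8 := congrArg norm h7
    have h9 : ‖(2 * Real.pi * ((Ph L : ℝ) : ℂ))‖ = 2 * Real.pi * Ph L := by
      rw [norm_mul, norm_mul, Complex.norm_real, Complex.norm_real, Real.norm_eq_abs, Real.norm_eq_abs,
        abs_of_pos Real.pi_pos, abs_of_nonneg (Pool.Agent.R399.TW.Ph_nn L)]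
      simp
    rw [h9] at h8
    rw [h8]
    refine (norm_sub_le _ _).trans ?_
    rw [add_comm]
  have h10 := half_le_Ph hL
  have h11 : Real.pi ≤ 2 * Real.pi * Ph L := by
    have := Real.pi_pos
    nlinarith
  refine h11.trans (h6.trans (add_le_add ?_ ?_))
  · refine (norm_integral_le_integral_norm _).trans (le_of_eq ?_)
    simp_rw [norm_mul]
  · refine (norm_integral_le_integral_norm _).trans (le_of_eq ?_)
    refine integral_congr_ae (Eventually.of_forall fun t => ?_)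
    simp only
    rw [hval _ (hne2 t), norm_mul]

end Pool.Agent.A856.ZD
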