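import Pool.Agent.A856.ZD.Det

/-!
# Zero density in a thin coset

Owner helper856 (zeros of Hecke L-functions in thin cosets).
-/

set_option autoImplicit false
set_option linter.unusedSectionVars false
set_option linter.unusedVariables false
set_option maxHeartbeats 4000000

open NumberField Complex Filter Topology Set MeasureTheory

namespace Pool.Agent.A856.ZD

open Pool.Agent.Y773 (LI rp)
open Pool.Agent.Y773.G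
open Pool.Agent.A856.HW
open Pool.Agent.R399.TW (pt pt_re pt_im pt_cont strip)

variable {K : Type} [Field K] [NumberField K]

/-- the sum over the ideals converges -/
lemma summable_N {σ : ℝ} (hσ : 1 < σ) : Summable fun 𝔞 : Ideal (𝓞 K) => (Ideal.absNorm 𝔞 : ℝ) ^ (-σ) := by
  have h1 := summable_ideals (K := K) hσ
  have h3 := (Subtype.val_injective (p := fun I : Ideal (𝓞 K) => I ≠ ⊥)).summable_iff
    (f := fun 𝔞 : Ideal (𝓞 K) => (Ideal.absNorm 𝔞 : ℝ) ^ (-σ)) (by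
      intro I hI
      have : I = ⊥ := by
        by_contra h0
        exact hI ⟨⟨I, h0⟩, rfl⟩
      rw [this, Ideal.absNorm_bot, Nat.cast_zero, Real.zero_rpow (by linarith)])
  exact h3.mp h1

/-- the mean square on the critical line, with `ε` -/
theorem L_fam_eps (K : Type) [Field K] [NumberField K] {ε : ℝ} (hε : 0 < ε) : ∃ C : ℝ, 0 < C ∧
    ∀ (𝔣 𝔡 : Ideal (𝓞 K)) (e : InfinitePlace K → ℕ) (I : Type) [Fintype I]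
      (ψ : I → Ideal (𝓞 K) →*₀ ℂ), Fam 𝔣 𝔡 e ψ → 𝔣 ≠ ⊥ → 𝔣 ≤ 𝔡 → 𝔡 ^ 3 ≤ 𝔣 →
      ∀ F : I → ℂ → ℂ, (∀ i, Differentiable ℂ (F i)) →
        (∀ i, ∀ s : ℂ, 1 < s.re → F i s = LI (ψ i) s) → ∀ t : ℝ,
      ∑ i, ‖F i (1 / 2 + t * Complex.I)‖ ^ 2 ≤
        C * (1 + |t|) ^ (6 * Module.finrank ℚ K) *
          ((Ideal.absNorm 𝔡 : ℝ) * (Ideal.absNorm 𝔣 : ℝ) ^ ε) := by
  obtain ⟨C₁, hC₁, h1⟩ := L_fam K
  obtain ⟨C₂, hC₂, h2⟩ := tau_bound K (ε := ε / 4) (by positivity)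
  -- the logarithm
  obtain ⟨C₃, hC₃, h3⟩ : ∃ C₃ : ℝ, 0 < C₃ ∧ ∀ x : ℝ, 1 ≤ x →
      Real.log (2 * x) ^ 2 ≤ C₃ * x ^ (ε / 2) := by
    refine ⟨((ε / 4)⁻¹ * (2 : ℝ) ^ (ε / 4)) ^ 2, by positivity, fun x hx => ?_⟩
    have h4 : Real.log (2 * x) ≤ (2 * x) ^ (ε / 4) / (ε / 4) :=
      Real.log_le_rpow_div (by linarith) (by positivity)
    have h5 : 0 ≤ Real.log (2 * x) := Real.log_nonneg (by linarith)
    have h6 : (x ^ (ε / 4)) ^ 2 = x ^ (ε / 2) := by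
      rw [← Real.rpow_natCast, ← Real.rpow_mul (by linarith)]
      congr 1
      push_cast
      ring
    calc Real.log (2 * x) ^ 2 ≤ ((2 * x) ^ (ε / 4) / (ε / 4)) ^ 2 := pow_le_pow_left₀ h5 h4 2
      _ = ((ε / 4)⁻¹ * (2 : ℝ) ^ (ε / 4)) ^ 2 * (x ^ (ε / 4)) ^ 2 := by
          rw [Real.mul_rpow (by norm_num) (by linarith)]
          ring
      _ = _ := by rw [h6]
  refine ⟨C₁ * C₂ ^ 2 * C₃, by positivity, ?_⟩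
  intro 𝔣 𝔡 e I hI ψ hF hf0 hd1 hd3 F hFd hFL t
  refine (h1 𝔣 𝔡 e I ψ hF hf0 hd1 hd3 F hFd hFL t).trans ?_
  have hN : (1 : ℝ) ≤ Ideal.absNorm 𝔣 := one_le_absNorm hf0
  have h4 : (tau 𝔣 : ℝ) ^ 2 ≤ (C₂ * (Ideal.absNorm 𝔣 : ℝ) ^ (ε / 4)) ^ 2 :=
    pow_le_pow_left₀ (Nat.cast_nonneg _) (h2 𝔣 hf0) 2
  have h5 := h3 _ hN
  have h6 : ((Ideal.absNorm 𝔣 : ℝ) ^ (ε / 4)) ^ 2 * (Ideal.absNorm 𝔣 : ℝ) ^ (ε / 2) =
      (Ideal.absNorm 𝔣 : ℝ) ^ ε := by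
    rw [← Real.rpow_natCast, ← Real.rpow_mul (by linarith), ← Real.rpow_add (by linarith)]
    congr 1
    push_cast
    ring
  calc C₁ * (1 + |t|) ^ (6 * Module.finrank ℚ K) * (tau 𝔣 : ℝ) ^ 2 *
          (Ideal.absNorm 𝔡 : ℝ) * Real.log (2 * (Ideal.absNorm 𝔣 : ℝ)) ^ 2
      ≤ C₁ * (1 + |t|) ^ (6 * Module.finrank ℚ K) * (C₂ * (Ideal.absNorm 𝔣 : ℝ) ^ (ε / 4)) ^ 2 *
          (Ideal.absNorm 𝔡 : ℝ) * (C₃ * (Ideal.absNorm 𝔣 : ℝ) ^ (ε / 2)) := by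
        gcongr
    _ = C₁ * C₂ ^ 2 * C₃ * (1 + |t|) ^ (6 * Module.finrank ℚ K) *
          ((Ideal.absNorm 𝔡 : ℝ) * (((Ideal.absNorm 𝔣 : ℝ) ^ (ε / 4)) ^ 2 *
            (Ideal.absNorm 𝔣 : ℝ) ^ (ε / 2))) := by ring
    _ = _ := by rw [h6]

open Classical in
/-- **the tail to the right of one** -/
theorem D_mean (K : Type) [Field K] [NumberField K] {η : ℝ} (hη : 0 < η) : ∃ C : ℝ, 0 < C ∧
    ∀ (𝔣 𝔡 : Ideal (𝓞 K)) (e : InfinitePlace K → ℕ) (I : Type) [Fintype I]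
      (ψ : I → Ideal (𝓞 K) →*₀ ℂ), Fam 𝔣 𝔡 e ψ → 𝔣 ≠ ⊥ → 𝔣 ≤ 𝔡 → 𝔡 ^ 3 ≤ 𝔣 →
      ∀ F : I → ℂ → ℂ, (∀ i, ∀ s : ℂ, 1 < s.re → F i s = LI (ψ i) s) → ∀ t : ℝ,
      ∑ i, ‖F i (pt (1 + 2 * η) t) * Mo (Ideal.absNorm 𝔡 : ℝ) (ψ i) (pt (1 + 2 * η) t) - 1‖ ^ 2 ≤ C := by
  obtain ⟨C₁, hC₁, hls⟩ := ls_tail K hη
  obtain ⟨C₂, hC₂, htau⟩ := tau_bound K hη
  have hsN := summable_N (K := K) (σ := 1 + η) (by linarith)
  set Z : ℝ := ∑' 𝔞 : Ideal (𝓞 K), (Ideal.absNorm 𝔞 : ℝ) ^ (-(1 + η)) with hZ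
  have hZ0 : 0 ≤ Z := tsum_nonneg fun _ => by positivity
  refine ⟨C₁ * 2 * (C₂ ^ 2 * Z) + 1, by positivity, ?_⟩
  intro 𝔣 𝔡 e I hI ψ hF hf0 h1 h3 F hFL t
  have hd0 : 𝔡 ≠ ⊥ := fun h5 => hf0 (by rw [h5] at h1; exact le_bot_iff.mp h1)
  have hNd := one_le_absNorm hd0
  set X : ℝ := (Ideal.absNorm 𝔡 : ℝ) with hX
  have hX0 : 0 < X := by linarith
  set z : ℂ := pt (1 + 2 * η) t with hz
  have hzre : z.re = 1 + 2 * η := by rw [hz, pt_re]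
  set b : Ideal (𝓞 K) → ℂ := fun 𝔞 => if 𝔞 ≠ ⊥ ∧ X < (Ideal.absNorm 𝔞 : ℝ) then
    Aq X 𝔞 * ((Ideal.absNorm 𝔞 : ℕ) : ℂ) ^ (-z) else 0 with hb
  have hb1 : ∀ 𝔞, b 𝔞 ≠ 0 → 𝔞 ≠ ⊥ ∧ X ≤ (Ideal.absNorm 𝔞 : ℝ) := by
    intro 𝔞 h
    by_contra hcon
    apply h
    rw [hb]
    simp only
    rw [if_neg]
    rintro ⟨p1, p2⟩
    exact hcon ⟨p1, p2.le⟩
  have hbn : ∀ 𝔞, ‖b 𝔞‖ ≤ C₂ * (Ideal.absNorm 𝔞 : ℝ) ^ (-(1 + η)) := by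
    intro 𝔞
    rw [hb]
    simp only
    split_ifs with h
    · have h0 := absNorm_pos0 h.1
      rw [norm_mul]
      have e1 : ‖((Ideal.absNorm 𝔞 : ℕ) : ℂ) ^ (-z)‖ = (Ideal.absNorm 𝔞 : ℝ) ^ (-(1 + 2 * η)) := by
        rw [← Complex.ofReal_natCast, Complex.norm_cpow_eq_rpow_re_of_pos h0, Complex.neg_re, hzre]
      rw [e1]
      calc ‖Aq X 𝔞‖ * (Ideal.absNorm 𝔞 : ℝ) ^ (-(1 + 2 * η))
          ≤ (C₂ * (Ideal.absNorm 𝔞 : ℝ) ^ η) * (Ideal.absNorm 𝔞 : ℝ) ^ (-(1 + 2 * η)) := by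
            apply mul_le_mul_of_nonneg_right _ (by positivity)
            exact (norm_Aq_le X h.1).trans (htau 𝔞 h.1)
        _ = _ := by
            rw [mul_assoc, ← Real.rpow_add h0]
            congr 2
            ring
    · rw [norm_zero]
      positivity
  have hbs : Summable fun 𝔞 => ‖b 𝔞‖ :=
    Summable.of_nonneg_of_le (fun _ => norm_nonneg _) hbn (hsN.mul_left C₂)
  have hvb : ∀ 𝔞, (Ideal.absNorm 𝔞 : ℝ) ^ (1 + η) * ‖b 𝔞‖ ^ 2 ≤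
      C₂ ^ 2 * (Ideal.absNorm 𝔞 : ℝ) ^ (-(1 + η)) := by
    intro 𝔞
    by_cases h : b 𝔞 = 0
    · rw [h, norm_zero]
      have : 0 ≤ C₂ ^ 2 * (Ideal.absNorm 𝔞 : ℝ) ^ (-(1 + η)) := by positivity
      nlinarith
    · have h0 := absNorm_pos0 (hb1 𝔞 h).1
      calc (Ideal.absNorm 𝔞 : ℝ) ^ (1 + η) * ‖b 𝔞‖ ^ 2
          ≤ (Ideal.absNorm 𝔞 : ℝ) ^ (1 + η) * (C₂ * (Ideal.absNorm 𝔞 : ℝ) ^ (-(1 + η))) ^ 2 := by
            have := hbn 𝔞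
            gcongr
        _ = C₂ ^ 2 * (((Ideal.absNorm 𝔞 : ℝ) ^ (1 + η) * (Ideal.absNorm 𝔞 : ℝ) ^ (-(1 + η))) *
            (Ideal.absNorm 𝔞 : ℝ) ^ (-(1 + η))) := by ring
        _ = _ := by
            rw [← Real.rpow_add h0, add_neg_cancel, Real.rpow_zero, one_mul]
  have hvbs : Summable fun 𝔞 => (Ideal.absNorm 𝔞 : ℝ) ^ (1 + η) * ‖b 𝔞‖ ^ 2 :=
    Summable.of_nonneg_of_le (fun _ => by positivity) hvb (hsN.mul_left _)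
  have h5 := hls 𝔣 𝔡 e I ψ hF hf0 h1 h3 X hNd b hb1 hbs hvbs
  have h6 : ∀ i, F i z * Mo X (ψ i) z - 1 = ∑' 𝔞 : Ideal (𝓞 K), b 𝔞 * ψ i 𝔞 := by
    intro i
    have hψ : ∀ 𝔞, ‖ψ i 𝔞‖ ≤ 1 := fun 𝔞 => (hF.mod i).norm_le_one 𝔞
    have hz1 : 1 < z.re := by rw [hzre]; linarith
    obtain ⟨p1, p2⟩ := LI_mul_Mo hψ X hz1
    rw [hFL i z hz1, p2]
    have hbψ : Summable fun 𝔞 => b 𝔞 * ψ i 𝔞 := by
      refine Summable.of_norm_bounded hbs fun 𝔞 => ?_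
      rw [norm_mul]
      exact mul_le_of_le_one_right (norm_nonneg _) (hψ 𝔞)
    have e1 : ∑' 𝔞 : Ideal (𝓞 K), (if 𝔞 = ⊤ then (1 : ℂ) else 0) = 1 := tsum_ite_eq ⊤ (fun _ => (1 : ℂ))
    have e2 : ∀ 𝔞 : Ideal (𝓞 K), Aq X 𝔞 * (ψ i 𝔞 * ((Ideal.absNorm 𝔞 : ℕ) : ℂ) ^ (-z)) =
        b 𝔞 * ψ i 𝔞 + (if 𝔞 = ⊤ then (1 : ℂ) else 0) := by
      intro 𝔞
      by_cases h0 : 𝔞 = ⊥
      · have hne : 𝔞 ≠ ⊤ := by
          rw [h0]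
          exact bot_ne_top
        have hψ0 : ψ i 𝔞 = 0 := by rw [h0]; exact map_zero (ψ i)
        rw [hψ0, if_neg hne]
        ring
      · by_cases hN : X < (Ideal.absNorm 𝔞 : ℝ)
        · have hne : 𝔞 ≠ ⊤ := by
            rintro rfl
            rw [Ideal.absNorm_top, Nat.cast_one] at hN
            linarith
          rw [hb]
          simp only
          rw [if_pos ⟨h0, hN⟩, if_neg hne]
          ring
        · have hb0 : b 𝔞 = 0 := by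
            rw [hb]
            simp only
            rw [if_neg (fun h => hN h.2)]
          rw [hb0, Aq_small h0 (not_lt.mp hN)]
          by_cases ht : 𝔞 = ⊤
          · rw [if_pos ht, ht, Ideal.absNorm_top, Nat.cast_one, Complex.one_cpow]
            have : ψ i (⊤ : Ideal (𝓞 K)) = 1 := by
              rw [← Ideal.one_eq_top]
              exact map_one (ψ i)
            rw [this]
            ring
          · rw [if_neg ht]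
            ring
    have hst : Summable fun 𝔞 : Ideal (𝓞 K) => (if 𝔞 = ⊤ then (1 : ℂ) else 0) :=
      (hasSum_ite_eq ⊤ (1 : ℂ)).summable
    rw [tsum_congr e2, hbψ.tsum_add hst, e1]
    ring
  simp_rw [h6]
  refine h5.trans ?_
  have h7 : ∑' 𝔞, (Ideal.absNorm 𝔞 : ℝ) ^ (1 + η) * ‖b 𝔞‖ ^ 2 ≤ C₂ ^ 2 * Z := by
    rw [hZ, ← tsum_mul_left]
    exact hvbs.tsum_le_tsum hvb (hsN.mul_left _)
  have h8 : (X / X + 1 : ℝ) = 2 := by rw [div_self hX0.ne']; norm_num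
  rw [h8]
  have h9 := mul_le_mul_of_nonneg_left h7 (show 0 ≤ C₁ * 2 by positivity)
  linarith

/-- **the mollifier on the critical line** -/
theorem Mo_mean (K : Type) [Field K] [NumberField K] {η : ℝ} (hη : 0 < η) : ∃ C : ℝ, 0 < C ∧
    ∀ (𝔣 𝔡 : Ideal (𝓞 K)) (e : InfinitePlace K → ℕ) (I : Type) [Fintype I]
      (ψ : I → Ideal (𝓞 K) →*₀ ℂ), Fam 𝔣 𝔡 e ψ → 𝔣 ≠ ⊥ → 𝔣 ≤ 𝔡 → 𝔡 ^ 3 ≤ 𝔣 → ∀ t : ℝ,
      ∑ i, ‖Mo (Ideal.absNorm 𝔡 : ℝ) (ψ i) (pt (1 / 2) t)‖ ^ 2 ≤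
        C * ((Ideal.absNorm 𝔡 : ℝ) * (Ideal.absNorm 𝔡 : ℝ) ^ η) := by
  obtain ⟨C₁, hC₁, hls⟩ := ls_fin K
  have hsN := summable_N (K := K) (σ := 1 + η) (by linarith)
  set Z : ℝ := ∑' 𝔞 : Ideal (𝓞 K), (Ideal.absNorm 𝔞 : ℝ) ^ (-(1 + η)) with hZ
  have hZ0 : 0 ≤ Z := tsum_nonneg fun _ => by positivity
  refine ⟨C₁ * 2 * (Z + 1), by positivity, ?_⟩
  intro 𝔣 𝔡 e I hI ψ hF hf0 h1 h3 t
  have hd0 : 𝔡 ≠ ⊥ := fun h5 => hf0 (by rw [h5] at h1; exact le_bot_iff.mp h1)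
  have hNd := one_le_absNorm hd0
  set X : ℝ := (Ideal.absNorm 𝔡 : ℝ) with hX
  have hX0 : 0 < X := by linarith
  simp_rw [Mo_eq]
  refine (hls 𝔣 𝔡 e I ψ hF hf0 h1 h3 X hNd (TX K X) (fun 𝔞 h => (TX_le h).2) _).trans ?_
  have h5 : ∑ 𝔞 ∈ TX K X, ‖bM (pt (1 / 2) t) 𝔞‖ ^ 2 ≤ X ^ η * (Z + 1) := by
    have e1 : ∀ 𝔞 ∈ TX K X, ‖bM (pt (1 / 2) t) 𝔞‖ ^ 2 ≤ X ^ η * (Ideal.absNorm 𝔞 : ℝ) ^ (-(1 + η)) := by
      intro 𝔞 h𝔞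
      obtain ⟨h0, hle⟩ := TX_le h𝔞
      have hp := absNorm_pos0 h0
      rw [norm_bM h0, pt_re]
      have e2 : ((Ideal.absNorm 𝔞 : ℝ) ^ (-(1 / 2) : ℝ)) ^ 2 =
          (Ideal.absNorm 𝔞 : ℝ) ^ η * (Ideal.absNorm 𝔞 : ℝ) ^ (-(1 + η)) := by
        rw [← Real.rpow_natCast, ← Real.rpow_mul hp.le, ← Real.rpow_add hp]
        congr 1
        push_cast
        ring
      rw [e2]
      apply mul_le_mul_of_nonneg_right _ (by positivity)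
      exact Real.rpow_le_rpow hp.le hle hη.le
    refine (Finset.sum_le_sum e1).trans ?_
    rw [← Finset.mul_sum]
    apply mul_le_mul_of_nonneg_left _ (by positivity)
    have := hsN.sum_le_tsum (TX K X) (fun _ _ => by positivity)
    linarith
  calc C₁ * (X + X) * ∑ 𝔞 ∈ TX K X, ‖bM (pt (1 / 2) t) 𝔞‖ ^ 2
      ≤ C₁ * (X + X) * (X ^ η * (Z + 1)) := mul_le_mul_of_nonneg_left h5 (by positivity)
    _ = _ := by ring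

end Pool.Agent.A856.ZD
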