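import Pool.Agent.A856.HW.Tau

/-!
# Balanced generators of principal ideals, and lattice points in the classes modulo an ideal

Owner helper856 (zeros of Hecke L-functions in thin cosets).
-/

set_option autoImplicit false
set_option linter.unusedSectionVars false
set_option linter.unusedVariables false
set_option maxHeartbeats 4000000

open NumberField Complex Filter Topology Set MeasureTheory
open NumberField.Units NumberField.mixedEmbedding

namespace Pool.Agent.A856.ZD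

open Pool.Agent.A856.HW

variable {K : Type} [Field K] [NumberField K]

open Classical in
/-- the size of the places on the part of norm at most one of the fundamental cone -/
lemma place_bound (K : Type) [Field K] [NumberField K] : ∃ C : ℝ, 1 ≤ C ∧
    ∀ x ∈ fundamentalCone.normLeOne K, ∀ w : InfinitePlace K, normAtPlace w x ≤ C := by
  obtain ⟨R, hR⟩ := Bornology.IsBounded.exists_norm_le (E := mixedSpace K)
    (fundamentalCone.isBounded_normLeOne K)
  refine ⟨max R 1, le_max_right _ _, fun x hx w => ?_⟩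
  refine le_trans ?_ ((hR x hx).trans (le_max_left _ _))
  by_cases hw : w.IsReal
  · rw [normAtPlace_apply_of_isReal hw]
    exact (norm_le_pi_norm x.1 ⟨w, hw⟩).trans (le_max_left _ _)
  · rw [InfinitePlace.not_isReal_iff_isComplex] at hw
    rw [normAtPlace_apply_of_isComplex hw]
    exact (norm_le_pi_norm x.2 ⟨w, hw⟩).trans (le_max_right _ _)

/-- **balanced generators** -/
theorem exists_balgen (K : Type) [Field K] [NumberField K] : ∃ C : ℝ, 1 ≤ C ∧
    ∀ x : 𝓞 K, x ≠ 0 → ∃ y : 𝓞 K, Ideal.span {y} = Ideal.span {x} ∧ y ≠ 0 ∧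
      ∀ w : InfinitePlace K, w (y : K) ≤ C * (Ideal.absNorm (Ideal.span {x}) : ℝ) ^ (1 / dg K) := by
  obtain ⟨C, hC, hb⟩ := place_bound K
  refine ⟨C, hC, fun x hx => ?_⟩
  have hn := dg_pos (K := K)
  have hxK : (x : K) ≠ 0 := RingOfIntegers.coe_ne_zero_iff.mpr hx
  have hN0 : (0 : ℝ) < (Ideal.absNorm (Ideal.span {x}) : ℝ) :=
    absNorm_pos0 (by rwa [Ne, Ideal.span_singleton_eq_bot])
  have hnorm : mixedEmbedding.norm (mixedEmbedding K (x : K)) = (Ideal.absNorm (Ideal.span {x}) : ℝ) := by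
    rw [norm_eq_norm, Ideal.absNorm_span_singleton]
    have h1 : Algebra.norm ℚ ((x : 𝓞 K) : K) = ((Algebra.norm ℤ x : ℤ) : ℚ) := by
      rw [Algebra.coe_norm_int]
    rw [h1]
    push_cast [Nat.cast_natAbs]
    simp
  have hne : mixedEmbedding.norm (mixedEmbedding K (x : K)) ≠ 0 := by
    rw [hnorm]; exact hN0.ne'
  obtain ⟨u, hu⟩ := fundamentalCone.exists_unit_smul_mem hne
  refine ⟨(u : 𝓞 K) * x, ?_, mul_ne_zero (Units.ne_zero u) hx, fun w => ?_⟩
  · exact Ideal.span_singleton_mul_left_unit u.isUnit x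
  · set N : ℝ := (Ideal.absNorm (Ideal.span {x}) : ℝ) with hN
    set c : ℝ := (N ^ (1 / dg K))⁻¹ with hc
    have hNn : 0 < N ^ (1 / dg K) := by positivity
    have hc0 : 0 < c := by positivity
    have hmem : c • (u • mixedEmbedding K (x : K)) ∈ fundamentalCone.normLeOne K := by
      refine ⟨fundamentalCone.smul_mem_of_mem hu hc0.ne', ?_⟩
      change mixedEmbedding.norm (c • (u • mixedEmbedding K (x : K))) ≤ 1
      rw [mixedEmbedding.norm_smul, mixedEmbedding.norm_unit_smul, hnorm, abs_of_pos hc0, hc,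
        inv_pow, ← Real.rpow_natCast, ← Real.rpow_mul hN0.le]
      have : 1 / dg K * (Module.finrank ℚ K : ℝ) = 1 := by
        have h2 : dg K = (Module.finrank ℚ K : ℝ) := rfl
        rw [h2, one_div, inv_mul_cancel₀]
        rw [← h2]; exact hn.ne'
      rw [this, Real.rpow_one, inv_mul_cancel₀ hN0.ne']
    have h3 := hb _ hmem w
    rw [normAtPlace_smul, unitSMul_smul, map_mul, normAtPlace_apply, normAtPlace_apply,
      abs_of_pos hc0] at h3
    have h4 : w (((u : 𝓞 K) * x : 𝓞 K) : K) = w ((u : 𝓞 K) : K) * w (x : K) := by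
      rw [← map_mul]
      rfl
    rw [h4]
    have h5 : c * (w ((u : 𝓞 K) : K) * w (x : K)) ≤ C := h3
    rw [hc, inv_mul_le_iff₀ hNn] at h5
    linarith

lemma QQ_le_of {y : 𝓞 K} {R : ℝ} (hR : 0 ≤ R) (h : ∀ w : InfinitePlace K, w (y : K) ≤ R) :
    QQ (y : K) ≤ dg K * R ^ 2 := by
  rw [QQ_eq]
  have h1 : ∑ w : InfinitePlace K, (w.mult : ℝ) = dg K := by
    have := InfinitePlace.sum_mult_eq (K := K)
    unfold dg
    exact_mod_cast this
  rw [← h1, Finset.sum_mul]
  refine Finset.sum_le_sum fun w _ => ?_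
  have := apply_nonneg w (y : K)
  have h2 := h w
  have : w (y : K) ^ 2 ≤ R ^ 2 := by gcongr
  exact mul_le_mul_of_nonneg_left this (Nat.cast_nonneg _)

/-- **lattice points in a class** -/
theorem count_class (K : Type) [Field K] [NumberField K] : ∃ C : ℝ, 0 < C ∧
    ∀ 𝔠 : Ideal (𝓞 K), 𝔠 ≠ ⊥ → ∀ R : ℝ, 0 < R → ∀ S : Finset (𝓞 K),
      (∀ x ∈ S, ∀ y ∈ S, x - y ∈ 𝔠) → (∀ x ∈ S, QQ (x : K) ≤ R ^ 2) →
      (S.card : ℝ) ≤ 1 + C * (R ^ (Module.finrank ℚ K) / (Ideal.absNorm 𝔠 : ℝ)) := by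
  classical
  obtain ⟨C, hC, h⟩ := sum_ideal K
  refine ⟨Real.exp 4 * C, by positivity, fun 𝔠 h𝔠 R hR S hS1 hS2 => ?_⟩
  rcases S.eq_empty_or_nonempty with rfl | ⟨x₀, hx₀⟩
  · simp only [Finset.card_empty, Nat.cast_zero]
    positivity
  obtain ⟨hs, hle⟩ := h 𝔠 h𝔠 (R ^ 2)⁻¹ (by positivity)
  have hpow : ((R ^ 2)⁻¹ : ℝ) ^ (-(dg K) / 2) = R ^ (Module.finrank ℚ K) := by
    have h2 : dg K = (Module.finrank ℚ K : ℝ) := rfl
    rw [Real.inv_rpow (by positivity), ← Real.rpow_neg (by positivity), ← Real.rpow_natCast R 2,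
      ← Real.rpow_mul hR.le, h2]
    rw [← Real.rpow_natCast]
    congr 1
    push_cast
    ring
  rw [hpow] at hle
  have hcard : (((S.erase x₀).card : ℕ) : ℝ) ≤
      Real.exp 4 * ∑' x : {x : 𝓞 K // x ∈ 𝔠 ∧ x ≠ 0}, Real.exp (-(R ^ 2)⁻¹ * QQ (x.1 : K)) := by
    have hmap : ∀ x ∈ S.erase x₀, x - x₀ ∈ 𝔠 ∧ x - x₀ ≠ 0 := fun x hx =>
      ⟨hS1 x (Finset.mem_of_mem_erase hx) x₀ hx₀, sub_ne_zero.mpr (Finset.ne_of_mem_erase hx)⟩
    let i : {x // x ∈ S.erase x₀} → {x : 𝓞 K // x ∈ 𝔠 ∧ x ≠ 0} := fun x => ⟨x.1 - x₀, hmap x.1 x.2⟩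
    have hi : Function.Injective i := by
      intro x y hxy
      have h5 : x.1 - x₀ = y.1 - x₀ := congrArg Subtype.val hxy
      exact Subtype.ext (by linear_combination h5)
    have h6 : ∀ x : {x // x ∈ S.erase x₀}, (1 : ℝ) ≤
        Real.exp 4 * Real.exp (-(R ^ 2)⁻¹ * QQ ((i x).1 : K)) := by
      intro x
      rw [← Real.exp_add]
      apply Real.one_le_exp
      have h7 : QQ ((i x).1 : K) ≤ 4 * R ^ 2 := by
        have h8 := QQ_add_le ((x₀ : 𝓞 K) : K) (((i x).1 : 𝓞 K) : K)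
        have h9 : ((x₀ : 𝓞 K) : K) + (((i x).1 : 𝓞 K) : K) = ((x.1 : 𝓞 K) : K) := by
          change ((x₀ : 𝓞 K) : K) + ((x.1 - x₀ : 𝓞 K) : K) = _
          rw [show ((x.1 - x₀ : 𝓞 K) : K) = ((x.1 : 𝓞 K) : K) - ((x₀ : 𝓞 K) : K) from
            map_sub (algebraMap (𝓞 K) K) _ _]
          ring
        rw [h9] at h8
        have h10 := hS2 x.1 (Finset.mem_of_mem_erase x.2)
        have h11 := hS2 x₀ hx₀
        linarith
      have h12 : (R ^ 2)⁻¹ * QQ ((i x).1 : K) ≤ 4 := by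
        rw [inv_mul_le_iff₀ (by positivity)]
        linarith
      linarith
    calc (((S.erase x₀).card : ℕ) : ℝ) = ∑ _x : {x // x ∈ S.erase x₀}, (1 : ℝ) := by
          rw [Finset.sum_const, Finset.card_univ, Fintype.card_coe, nsmul_eq_mul, mul_one]
      _ ≤ ∑ x : {x // x ∈ S.erase x₀}, Real.exp 4 * Real.exp (-(R ^ 2)⁻¹ * QQ ((i x).1 : K)) :=
          Finset.sum_le_sum fun x _ => h6 x
      _ = Real.exp 4 * ∑ x : {x // x ∈ S.erase x₀}, Real.exp (-(R ^ 2)⁻¹ * QQ ((i x).1 : K)) := by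
          rw [Finset.mul_sum]
      _ ≤ _ := by
          apply mul_le_mul_of_nonneg_left _ (Real.exp_pos _).le
          rw [← tsum_fintype (L := .unconditional _)]
          exact tsum_comp_le_tsum_of_inj hs (fun _ => (Real.exp_pos _).le) hi
  have h5 : (S.card : ℝ) = ((S.erase x₀).card : ℕ) + 1 := by
    rw [Finset.card_erase_of_mem hx₀]
    have : 1 ≤ S.card := Finset.card_pos.mpr ⟨x₀, hx₀⟩
    push_cast [Nat.cast_sub this]
    ring
  rw [h5]
  have h6 := mul_le_mul_of_nonneg_left hle (Real.exp_pos 4).le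
  linarith

end Pool.Agent.A856.ZD
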