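import Pool.Agent.A856.ZD.Gen

/-!
# A weighted large sieve for the characters in a coset

Owner helper856 (zeros of Hecke L-functions in thin cosets).
-/

set_option autoImplicit false
set_option linter.unusedSectionVars false
set_option linter.unusedVariables false
set_option maxHeartbeats 4000000

open NumberField Complex Filter Topology Set MeasureTheory

namespace Pool.Agent.A856.ZD

open Pool.Agent.Y773 (Reps rp rp_ne_bot reps_rp qt qt_eq Sc exists_unique_class)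
open Pool.Agent.Y773.G
open Pool.Agent.A856.HW

variable {K : Type} [Field K] [NumberField K]

/-- balanced representatives of the ideals -/
theorem exists_rep (K : Type) [Field K] [NumberField K] : ∃ (C : ℝ) (cl : Ideal (𝓞 K) → ClassGroup (𝓞 K))
    (xg : Ideal (𝓞 K) → 𝓞 K), 1 ≤ C ∧ ∀ 𝔞 : Ideal (𝓞 K), 𝔞 ≠ ⊥ →
      𝔞 * rp K (cl 𝔞) = Ideal.span {xg 𝔞} ∧ xg 𝔞 ≠ 0 ∧
      QQ (xg 𝔞 : K) ≤ (C * (Ideal.absNorm 𝔞 : ℝ) ^ (1 / dg K)) ^ 2 := by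
  classical
  obtain ⟨C, hC, hbal⟩ := exists_balgen K
  have hn := dg_pos (K := K)
  have h1n := one_le_dg (K := K)
  set P : ℝ := ∑ c, (Ideal.absNorm (rp K c) : ℝ) ^ (1 / dg K) with hP
  have hPc : ∀ c, (Ideal.absNorm (rp K c) : ℝ) ^ (1 / dg K) ≤ P := fun c =>
    Finset.single_le_sum (f := fun c => (Ideal.absNorm (rp K c) : ℝ) ^ (1 / dg K))
      (fun c _ => by positivity) (Finset.mem_univ c)
  have hP1 : 1 ≤ P := by
    refine le_trans ?_ (hPc 1)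
    exact Real.one_le_rpow (one_le_absNorm (rp_ne_bot _)) (by positivity)
  have hex : ∀ 𝔞 : Ideal (𝓞 K), ∃ (c : ClassGroup (𝓞 K)) (x : 𝓞 K), 𝔞 ≠ ⊥ →
      𝔞 * rp K c = Ideal.span {x} ∧ x ≠ 0 ∧
      QQ (x : K) ≤ (√(dg K) * C * P * (Ideal.absNorm 𝔞 : ℝ) ^ (1 / dg K)) ^ 2 := by
    intro 𝔞
    by_cases h0 : 𝔞 = ⊥
    · exact ⟨1, 0, fun h => absurd h0 h⟩
    obtain ⟨c, hc, -⟩ := exists_unique_class (reps_rp (K := K)) h0
    obtain ⟨y, hy⟩ := hc.2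
    have hy' : 𝔞 * rp K c = Ideal.span {y} := hy
    have hy0 : y ≠ 0 := by
      rintro rfl
      rw [Ideal.span_singleton_eq_bot.mpr rfl] at hy'
      exact mul_ne_zero h0 (rp_ne_bot c) hy'
    obtain ⟨x, hx1, hx2, hx3⟩ := hbal y hy0
    refine ⟨c, x, fun _ => ⟨by rw [hx1]; exact hy', hx2, ?_⟩⟩
    have hN : (Ideal.absNorm (Ideal.span {y}) : ℝ) = (Ideal.absNorm 𝔞 : ℝ) * (Ideal.absNorm (rp K c) : ℝ) := by
      rw [← hy', map_mul, Nat.cast_mul]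
    rw [hN] at hx3
    have hR0 : 0 ≤ C * ((Ideal.absNorm 𝔞 : ℝ) * (Ideal.absNorm (rp K c) : ℝ)) ^ (1 / dg K) := by positivity
    refine (QQ_le_of hR0 hx3).trans ?_
    rw [Real.mul_rpow (by positivity) (by positivity)]
    have h5 : √(dg K) ^ 2 = dg K := Real.sq_sqrt hn.le
    calc dg K * (C * ((Ideal.absNorm 𝔞 : ℝ) ^ (1 / dg K) * (Ideal.absNorm (rp K c) : ℝ) ^ (1 / dg K))) ^ 2
        ≤ dg K * (C * ((Ideal.absNorm 𝔞 : ℝ) ^ (1 / dg K) * P)) ^ 2 := by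
          have := hPc c
          gcongr
      _ = _ := by
          have h8 : (√(dg K) * C * P * (Ideal.absNorm 𝔞 : ℝ) ^ (1 / dg K)) ^ 2 =
            √(dg K) ^ 2 * (C * ((Ideal.absNorm 𝔞 : ℝ) ^ (1 / dg K) * P)) ^ 2 := by ring
          rw [h8, h5]
  choose cl xg hcx using hex
  refine ⟨√(dg K) * C * P, cl, xg, ?_, hcx⟩
  have h6 : 1 ≤ √(dg K) := Real.one_le_sqrt.mpr h1n
  have h7 : 1 ≤ √(dg K) * C := one_le_mul_of_one_le_of_one_le h6 hC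
  exact one_le_mul_of_one_le_of_one_le h7 hP1

/-- Cauchy-Schwarz with a weight, on the support -/
lemma cs_weight {α : Type} (S : Finset α) (f v : α → ℝ) (hf : ∀ a ∈ S, 0 ≤ f a) (hv : ∀ a ∈ S, 0 < v a)
    {W : ℝ} (hW : ∑ a ∈ S, (v a)⁻¹ ≤ W) : (∑ a ∈ S, f a) ^ 2 ≤ W * ∑ a ∈ S, v a * f a ^ 2 := by
  have h1 := Finset.sum_mul_sq_le_sq_mul_sq S (fun a => (√(v a))⁻¹) (fun a => √(v a) * f a)
  have h2 : ∑ a ∈ S, (√(v a))⁻¹ * (√(v a) * f a) = ∑ a ∈ S, f a := by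
    refine Finset.sum_congr rfl fun a ha => ?_
    have : √(v a) ≠ 0 := (Real.sqrt_pos.mpr (hv a ha)).ne'
    field_simp
  have h3 : ∑ a ∈ S, ((√(v a))⁻¹) ^ 2 = ∑ a ∈ S, (v a)⁻¹ := by
    refine Finset.sum_congr rfl fun a ha => ?_
    rw [inv_pow, Real.sq_sqrt (hv a ha).le]
  have h4 : ∑ a ∈ S, (√(v a) * f a) ^ 2 = ∑ a ∈ S, v a * f a ^ 2 := by
    refine Finset.sum_congr rfl fun a ha => ?_
    rw [mul_pow, Real.sq_sqrt (hv a ha).le]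
  rw [h2, h3, h4] at h1
  exact h1.trans (mul_le_mul_of_nonneg_right hW
    (Finset.sum_nonneg fun a ha => mul_nonneg (hv a ha).le (sq_nonneg _)))

section cls

variable {cl : Ideal (𝓞 K) → ClassGroup (𝓞 K)} {xg : Ideal (𝓞 K) → 𝓞 K}

/-- the properties of the representatives -/
structure Rep (cl : Ideal (𝓞 K) → ClassGroup (𝓞 K)) (xg : Ideal (𝓞 K) → 𝓞 K) : Prop where
  eq : ∀ 𝔞 : Ideal (𝓞 K), 𝔞 ≠ ⊥ → 𝔞 * rp K (cl 𝔞) = Ideal.span {xg 𝔞}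
  ne : ∀ 𝔞 : Ideal (𝓞 K), 𝔞 ≠ ⊥ → xg 𝔞 ≠ 0

/-- the ideals in the class `c` -/
abbrev Jc (cl : Ideal (𝓞 K) → ClassGroup (𝓞 K)) (c : ClassGroup (𝓞 K)) :=
  {𝔞 : Ideal (𝓞 K) // 𝔞 ≠ ⊥ ∧ cl 𝔞 = c}

lemma Rep.inj (h : Rep cl xg) (c : ClassGroup (𝓞 K)) :
    Function.Injective (fun 𝔞 : Jc cl c => xg 𝔞.1) := by
  intro 𝔞 𝔞' hx
  have h1 := h.eq 𝔞.1 𝔞.2.1
  have h2 := h.eq 𝔞'.1 𝔞'.2.1
  rw [𝔞.2.2] at h1
  rw [𝔞'.2.2] at h2
  have h3 : 𝔞.1 * rp K c = 𝔞'.1 * rp K c := by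
    rw [h1, h2]
    exact congrArg (fun x => Ideal.span {x}) hx
  exact Subtype.ext (mul_right_cancel₀ (rp_ne_bot c) h3)

open Classical in
/-- **one class** -/
lemma ls_class (h : Rep cl xg) {𝔣 𝔡 : Ideal (𝓞 K)} {e : InfinitePlace K → ℕ} {I : Type} [Fintype I]
    {ψ : I → Ideal (𝓞 K) →*₀ ℂ} (hF : Fam 𝔣 𝔡 e ψ) (h1 : 𝔣 ≤ 𝔡) (h3 : 𝔡 ^ 3 ≤ 𝔣)
    (c : ClassGroup (𝓞 K)) {b : Ideal (𝓞 K) → ℂ} (hb : Summable fun 𝔞 => ‖b 𝔞‖)
    {v : Ideal (𝓞 K) → ℝ} (hv : ∀ 𝔞, 0 < v 𝔞) (hvb : Summable fun 𝔞 => v 𝔞 * ‖b 𝔞‖ ^ 2)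
    {W : ℝ} (hW0 : 0 ≤ W)
    (hW : ∀ S : Finset (Ideal (𝓞 K)), (∀ 𝔞 ∈ S, 𝔞 ≠ ⊥ ∧ cl 𝔞 = c ∧ b 𝔞 ≠ 0) →
      (∀ 𝔞 ∈ S, ∀ 𝔞' ∈ S, xg 𝔞 - xg 𝔞' ∈ Ideal.span {(2 : 𝓞 K)} * (rp K c * 𝔡)) →
      ∑ 𝔞 ∈ S, (v 𝔞)⁻¹ ≤ W) :
    ∑ i, ‖∑' 𝔞 : Jc cl c, b 𝔞.1 * ψ i 𝔞.1‖ ^ 2 ≤
      (mu K : ℝ) * (2 ^ (Module.finrank ℚ K) * (Ideal.absNorm 𝔡 : ℝ)) *
        (W * ∑' 𝔞 : Jc cl c, v 𝔞.1 * ‖b 𝔞.1‖ ^ 2) := by
  rcases isEmpty_or_nonempty I with hemp | ⟨⟨i₀⟩⟩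
  · rw [Finset.univ_eq_empty, Finset.sum_empty]
    have : 0 ≤ ∑' 𝔞 : Jc cl c, v 𝔞.1 * ‖b 𝔞.1‖ ^ 2 :=
      tsum_nonneg fun 𝔞 => mul_nonneg (hv _).le (sq_nonneg _)
    positivity
  set 𝔟 := rp K c with h𝔟
  have hb0 : 𝔟 ≠ ⊥ := rp_ne_bot c
  have hf0 := (hF.chr i₀).ne
  have hd0 : 𝔡 ≠ ⊥ := fun h5 => hf0 (by rw [h5] at h1; exact le_bot_iff.mp h1)
  set 𝔠 : Ideal (𝓞 K) := Ideal.span {(2 : 𝓞 K)} * (𝔟 * 𝔡) with h𝔠
  have h20 : Ideal.span {(2 : 𝓞 K)} ≠ ⊥ := by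
    rw [Ne, Ideal.span_singleton_eq_bot]
    exact two_ne_zero
  have hc0 : 𝔠 ≠ ⊥ := by
    rw [h𝔠]
    exact mul_ne_zero h20 (mul_ne_zero hb0 hd0)
  have : Finite (𝓞 K ⧸ 𝔠) := Ideal.finiteQuotientOfFreeOfNeBot 𝔠 hc0
  have : Fintype (𝓞 K ⧸ 𝔠) := Fintype.ofFinite _
  set j : Jc cl c → 𝓞 K := fun 𝔞 => xg 𝔞.1 with hj
  have hinj : Function.Injective j := h.inj c
  set g : 𝓞 K → ℂ := Function.extend j (fun 𝔞 => b 𝔞.1 * sg e (xg 𝔞.1 : K)) 0 with hg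
  set G : 𝓞 K → ℝ := Function.extend j (fun 𝔞 => v 𝔞.1 * ‖b 𝔞.1‖ ^ 2) 0 with hGdef
  have hgj : ∀ 𝔞, g (j 𝔞) = b 𝔞.1 * sg e (xg 𝔞.1 : K) := fun 𝔞 => hinj.extend_apply _ _ _
  have hGj : ∀ 𝔞, G (j 𝔞) = v 𝔞.1 * ‖b 𝔞.1‖ ^ 2 := fun 𝔞 => hinj.extend_apply _ _ _
  have hg0 : ∀ x, x ∉ Set.range j → g x = 0 := fun x hx => Function.extend_apply' _ _ _ hx
  have hG0 : ∀ x, x ∉ Set.range j → G x = 0 := fun x hx => Function.extend_apply' _ _ _ hx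
  have hGnn : ∀ x, 0 ≤ G x := by
    intro x
    by_cases hx : x ∈ Set.range j
    · obtain ⟨𝔞, rfl⟩ := hx
      rw [hGj]
      exact mul_nonneg (hv _).le (sq_nonneg _)
    · rw [hG0 x hx]
  have hbJ : Summable fun 𝔞 : Jc cl c => ‖b 𝔞.1‖ := hb.comp_injective Subtype.val_injective
  have hvJ : Summable fun 𝔞 : Jc cl c => v 𝔞.1 * ‖b 𝔞.1‖ ^ 2 := hvb.comp_injective Subtype.val_injective
  have hgs : Summable fun x => ‖g x‖ := by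
    rw [← hinj.summable_iff (fun x hx => by rw [hg0 x hx, norm_zero])]
    refine Summable.of_nonneg_of_le (fun _ => norm_nonneg _) (fun 𝔞 => ?_) hbJ
    change ‖g (j 𝔞)‖ ≤ _
    rw [hgj, norm_mul]
    calc _ ≤ ‖b 𝔞.1‖ * 1 := mul_le_mul_of_nonneg_left (norm_sg_le _ _) (norm_nonneg _)
      _ = _ := mul_one _
  have hGs : Summable G := by
    rw [← hinj.summable_iff (fun x hx => hG0 x hx)]
    exact hvJ.congr fun 𝔞 => (hGj 𝔞).symm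
  -- the sums over the class
  have hsum : ∀ i, ∑' 𝔞 : Jc cl c, b 𝔞.1 * ψ i 𝔞.1 = ∑' x : 𝓞 K, Ps (ψ i) e 𝔟 x * g x := by
    intro i
    rw [← hinj.tsum_eq (f := fun x => Ps (ψ i) e 𝔟 x * g x) (by
      intro x hx
      by_contra hcon
      apply hx
      simp only
      rw [hg0 x hcon, mul_zero])]
    refine tsum_congr fun 𝔞 => ?_
    rw [hgj]
    have h5 := h.eq 𝔞.1 𝔞.2.1
    rw [𝔞.2.2] at h5
    rw [hj, Ps_of_eq hb0 h5]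
    have h6 := sg_sq e (RingOfIntegers.coe_ne_zero_iff.mpr (h.ne 𝔞.1 𝔞.2.1))
    linear_combination (-(b 𝔞.1 * ψ i 𝔞.1)) * h6
  have hGsum : ∑' 𝔞 : Jc cl c, v 𝔞.1 * ‖b 𝔞.1‖ ^ 2 = ∑' x, G x := by
    rw [← hinj.tsum_eq (f := G) (by
      intro x hx
      by_contra hcon
      exact hx (hG0 x hcon))]
    exact tsum_congr fun 𝔞 => (hGj 𝔞).symm
  simp_rw [hsum]
  refine (fam_bessel hF hb0 h1 h3 i₀ hgs h𝔠).trans ?_
  apply mul_le_mul_of_nonneg_left _ (by positivity)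
  -- the classes
  have hG' : Summable fun p : (𝓞 K ⧸ 𝔠) × 𝔠 => G (ideE 𝔠 p) := hGs.comp_injective (ideE 𝔠).injective
  have hGq : ∀ q : 𝓞 K ⧸ 𝔠, Summable fun y : 𝔠 => G (Quotient.out q + (y : 𝓞 K)) := by
    intro q
    have h5 : Function.Injective fun y : 𝔠 => Quotient.out q + (y : 𝓞 K) := by
      intro y y' hy
      exact Subtype.ext (add_left_cancel hy)
    exact hGs.comp_injective h5
  have hcls : ∀ q : 𝓞 K ⧸ 𝔠, ‖Acl 𝔠 (fun x => Ps (ψ i₀) e 𝔟 x * g x) (Quotient.out q)‖ ^ 2 ≤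
      W * ∑' y : 𝔠, G (Quotient.out q + (y : 𝓞 K)) := by
    intro q
    set T : ℝ := W * ∑' y : 𝔠, G (Quotient.out q + (y : 𝓞 K)) with hT
    have hT0 : 0 ≤ T := mul_nonneg hW0 (tsum_nonneg fun y => hGnn _)
    have hgq : Summable fun y : 𝔠 => ‖g (Quotient.out q + (y : 𝓞 K))‖ := by
      have h5 : Function.Injective fun y : 𝔠 => Quotient.out q + (y : 𝓞 K) := by
        intro y y' hy
        exact Subtype.ext (add_left_cancel hy)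
      exact hgs.comp_injective h5
    have hfin : ∀ S : Finset 𝔠, ∑ y ∈ S, ‖g (Quotient.out q + (y : 𝓞 K))‖ ≤ √T := by
      intro S
      apply Real.le_sqrt_of_sq_le
      set S' : Finset 𝔠 := S.filter (fun y : 𝔠 => g (Quotient.out q + (y : 𝓞 K)) ≠ 0) with hS'
      have e1 : ∑ y ∈ S, ‖g (Quotient.out q + (y : 𝓞 K))‖ =
          ∑ y ∈ S', ‖g (Quotient.out q + (y : 𝓞 K))‖ := by
        rw [hS', Finset.sum_filter_of_ne]
        intro y _ hy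
        simpa using hy
      rw [e1]
      have hrange : ∀ y ∈ S', Quotient.out q + (y : 𝓞 K) ∈ Set.range j := by
        intro y hy
        by_contra hcon
        exact (Finset.mem_filter.mp hy).2 (hg0 _ hcon)
      -- the ideals
      set k : 𝔠 → Ideal (𝓞 K) := fun y => qt 𝔟 (Quotient.out q + (y : 𝓞 K)) with hk
      have hkj : ∀ 𝔞 : Jc cl c, ∀ y : 𝔠, j 𝔞 = Quotient.out q + (y : 𝓞 K) → k y = 𝔞.1 := by
        intro 𝔞 y hy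
        rw [hk]
        simp only
        rw [← hy]
        have h5 := h.eq 𝔞.1 𝔞.2.1
        rw [𝔞.2.2] at h5
        exact qt_eq hb0 h5
      have hkprop : ∀ y ∈ S', k y ≠ ⊥ ∧ cl (k y) = c ∧ b (k y) ≠ 0 ∧
          xg (k y) = Quotient.out q + (y : 𝓞 K) := by
        intro y hy
        obtain ⟨𝔞, h𝔞⟩ := hrange y hy
        rw [hkj 𝔞 y h𝔞]
        refine ⟨𝔞.2.1, 𝔞.2.2, ?_, h𝔞⟩
        have h6 := (Finset.mem_filter.mp hy).2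
        rw [← h𝔞, hgj] at h6
        exact left_ne_zero_of_mul h6
      have hkinj : ∀ y ∈ S', ∀ y' ∈ S', k y = k y' → y = y' := by
        intro y hy y' hy' hkk
        have h5 := (hkprop y hy).2.2.2
        have h6 := (hkprop y' hy').2.2.2
        rw [hkk, h6] at h5
        exact Subtype.ext (add_left_cancel h5).symm
      have hWS : ∑ y ∈ S', (v (k y))⁻¹ ≤ W := by
        rw [← Finset.sum_image (f := fun 𝔞 => (v 𝔞)⁻¹) hkinj]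
        apply hW
        · intro 𝔞 h𝔞
          obtain ⟨y, hy, rfl⟩ := Finset.mem_image.mp h𝔞
          obtain ⟨p1, p2, p3, -⟩ := hkprop y hy
          exact ⟨p1, p2, p3⟩
        · intro 𝔞 h𝔞 𝔞' h𝔞'
          obtain ⟨y, hy, rfl⟩ := Finset.mem_image.mp h𝔞
          obtain ⟨y', hy', rfl⟩ := Finset.mem_image.mp h𝔞'
          rw [(hkprop y hy).2.2.2, (hkprop y' hy').2.2.2]
          have : Quotient.out q + (y : 𝓞 K) - (Quotient.out q + (y' : 𝓞 K)) = (y : 𝓞 K) - (y' : 𝓞 K) := by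
            ring
          rw [this]
          exact 𝔠.sub_mem y.2 y'.2
      refine (cs_weight S' (fun y => ‖g (Quotient.out q + (y : 𝓞 K))‖) (fun y => v (k y))
        (fun _ _ => norm_nonneg _) (fun _ _ => hv _) hWS).trans ?_
      rw [hT]
      apply mul_le_mul_of_nonneg_left _ hW0
      calc ∑ y ∈ S', v (k y) * ‖g (Quotient.out q + (y : 𝓞 K))‖ ^ 2
          ≤ ∑ y ∈ S', G (Quotient.out q + (y : 𝓞 K)) := by
            refine Finset.sum_le_sum fun y hy => ?_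
            obtain ⟨𝔞, h𝔞⟩ := hrange y hy
            rw [hkj 𝔞 y h𝔞, ← h𝔞, hgj, hGj, norm_mul]
            have h5 := norm_sg_le e ((xg 𝔞.1 : 𝓞 K) : K)
            have h6 : (‖b 𝔞.1‖ * ‖sg e ((xg 𝔞.1 : 𝓞 K) : K)‖) ^ 2 ≤ ‖b 𝔞.1‖ ^ 2 := by
              apply pow_le_pow_left₀ (by positivity)
              exact mul_le_of_le_one_right (norm_nonneg _) h5
            exact mul_le_mul_of_nonneg_left h6 (hv _).le
        _ ≤ ∑' y : 𝔠, G (Quotient.out q + (y : 𝓞 K)) :=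
            (hGq q).sum_le_tsum _ fun y _ => hGnn _
    have h5 : ‖Acl 𝔠 (fun x => Ps (ψ i₀) e 𝔟 x * g x) (Quotient.out q)‖ ≤ √T := by
      unfold Acl
      have hle : ∀ y : 𝔠, ‖Ps (ψ i₀) e 𝔟 (Quotient.out q + (y : 𝓞 K)) * g (Quotient.out q + (y : 𝓞 K))‖ ≤
          ‖g (Quotient.out q + (y : 𝓞 K))‖ := by
        intro y
        rw [norm_mul]
        exact mul_le_of_le_one_left (norm_nonneg _) (norm_Ps_le (hF.mod i₀).norm_le_one _ _)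
      have hs1 : Summable fun y : 𝔠 =>
          ‖Ps (ψ i₀) e 𝔟 (Quotient.out q + (y : 𝓞 K)) * g (Quotient.out q + (y : 𝓞 K))‖ :=
        Summable.of_nonneg_of_le (fun _ => norm_nonneg _) hle hgq
      refine (norm_tsum_le_tsum_norm hs1).trans ((hs1.tsum_le_tsum hle hgq).trans ?_)
      exact Real.tsum_le_of_sum_le (fun _ => norm_nonneg _) hfin
    calc _ ≤ √T ^ 2 := pow_le_pow_left₀ (norm_nonneg _) h5 2
      _ = T := Real.sq_sqrt hT0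
  calc ∑ q : 𝓞 K ⧸ 𝔠, ‖Acl 𝔠 (fun x => Ps (ψ i₀) e 𝔟 x * g x) (Quotient.out q)‖ ^ 2
      ≤ ∑ q : 𝓞 K ⧸ 𝔠, W * ∑' y : 𝔠, G (Quotient.out q + (y : 𝓞 K)) := Finset.sum_le_sum fun q _ => hcls q
    _ = W * ∑ q : 𝓞 K ⧸ 𝔠, ∑' y : 𝔠, G (Quotient.out q + (y : 𝓞 K)) := by rw [Finset.mul_sum]
    _ = W * ∑' x, G x := by
        congr 1
        have h5 : ∑' p : (𝓞 K ⧸ 𝔠) × 𝔠, G (ideE 𝔠 p) = ∑' x, G x := (ideE 𝔠).tsum_eq G
        rw [← h5, hG'.tsum_prod' (fun q => by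
          have := hGq q
          simpa [ideE_apply] using this), tsum_fintype]
        refine Finset.sum_congr rfl fun q _ => ?_
        refine tsum_congr fun y => ?_
        rw [ideE_apply]
    _ = _ := by rw [hGsum]

end cls

end Pool.Agent.A856.ZD
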