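import Pool.Agent.A856.ZD.LS

/-!
# The large sieve for the characters in a coset

Owner helper856 (zeros of Hecke L-functions in thin cosets).
-/

set_option autoImplicit false
set_option linter.unusedSectionVars false
set_option linter.unusedVariables false
set_option maxHeartbeats 4000000

open NumberField Complex Filter Topology Set MeasureTheory

namespace Pool.Agent.A856.ZD

open Pool.Agent.Y773 (Reps rp rp_ne_bot reps_rp qt qt_eq Sc exists_unique_class)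
open Pool.Agent.Y773.G
open Pool.Agent.A856.HW

variable {K : Type} [Field K] [NumberField K]

/-- partial summation -/
lemma layer {α : Type} [DecidableEq α] (S : Finset α) (N : α → ℝ) {X A B η : ℝ} (hX : 0 < X) (hη : 0 < η)
    (hA : 0 ≤ A) (hB : 0 ≤ B) (hN : ∀ a ∈ S, X ≤ N a)
    (hc : ∀ u : ℝ, X ≤ u → ((S.filter (fun a => N a ≤ u)).card : ℝ) ≤ A + B * u) :
    ∑ a ∈ S, (N a) ^ (-(1 + η)) ≤ A * X ^ (-(1 + η)) + (1 + η) / η * B * X ^ (-η) := by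
  have hint : ∀ c : ℝ, 0 < c → ∀ r : ℝ, 0 < r → IntegrableOn (fun u : ℝ => u ^ (-(1 + r))) (Ioi c) ∧
      ∫ u in Ioi c, u ^ (-(1 + r)) = c ^ (-r) / r := by
    intro c hc r hr
    refine ⟨integrableOn_Ioi_rpow_of_lt (by linarith) hc, ?_⟩
    rw [integral_Ioi_rpow_of_lt (by linarith) hc]
    have : -(1 + r) + 1 = -r := by ring
    rw [this]
    field_simp
  have h1 : ∀ a ∈ S, (N a) ^ (-(1 + η)) =
      (1 + η) * ∫ u in Ioi X, (Ioi (N a)).indicator (fun u : ℝ => u ^ (-(1 + (1 + η)))) u := by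
    intro a ha
    have hNa := hN a ha
    have h2 := (hint (N a) (hX.trans_le hNa) (1 + η) (by linarith)).2
    rw [setIntegral_indicator measurableSet_Ioi]
    have h3 : Ioi X ∩ Ioi (N a) = Ioi (N a) := by
      rw [Set.inter_eq_right]
      exact Ioi_subset_Ioi hNa
    rw [h3, h2]
    field_simp
  rw [Finset.sum_congr rfl h1, ← Finset.mul_sum, ← integral_finsetSum]
  · have h4 : ∫ u in Ioi X, ∑ a ∈ S, (Ioi (N a)).indicator (fun u : ℝ => u ^ (-(1 + (1 + η)))) u ≤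
        ∫ u in Ioi X, (A * u ^ (-(1 + (1 + η))) + B * u ^ (-(1 + η))) := by
      refine setIntegral_mono_on ?_ ?_ measurableSet_Ioi fun u hu => ?_
      · refine integrable_finsetSum _ fun a ha => ?_
        refine Integrable.indicator ?_ measurableSet_Ioi
        exact (hint X hX (1 + η) (by linarith)).1
      · exact ((hint X hX (1 + η) (by linarith)).1.const_mul A).add ((hint X hX η hη).1.const_mul B)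
      · have hu0 : 0 < u := hX.trans hu
        have h5 : ∑ a ∈ S, (Ioi (N a)).indicator (fun u : ℝ => u ^ (-(1 + (1 + η)))) u =
            ((S.filter (fun a => N a < u)).card : ℝ) * u ^ (-(1 + (1 + η))) := by
          rw [← nsmul_eq_mul, ← Finset.sum_const, Finset.sum_filter]
          refine Finset.sum_congr rfl fun a _ => ?_
          by_cases h : N a < u
          · rw [indicator_of_mem (by exact h), if_pos h]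
          · rw [indicator_of_notMem (by exact h), if_neg h]
        rw [h5]
        have h6 : ((S.filter (fun a => N a < u)).card : ℝ) ≤ A + B * u := by
          refine le_trans ?_ (hc u (le_of_lt hu))
          exact_mod_cast Finset.card_le_card (Finset.monotone_filter_right _ fun a _ h => le_of_lt h)
        have h7 : u ^ (-(1 + η)) = u * u ^ (-(1 + (1 + η))) := by
          nth_rewrite 2 [← Real.rpow_one u]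
          rw [← Real.rpow_add hu0]
          congr 1
          ring
        rw [h7]
        calc _ ≤ (A + B * u) * u ^ (-(1 + (1 + η))) := mul_le_mul_of_nonneg_right h6 (by positivity)
          _ = _ := by ring
    rw [integral_add ((hint X hX (1 + η) (by linarith)).1.const_mul A) ((hint X hX η hη).1.const_mul B),
      integral_const_mul, integral_const_mul, (hint X hX (1 + η) (by linarith)).2,
      (hint X hX η hη).2] at h4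
    refine (mul_le_mul_of_nonneg_left h4 (by linarith)).trans (le_of_eq ?_)
    have : 1 + η ≠ 0 := by linarith
    field_simp
  · intro a ha
    refine Integrable.indicator ?_ measurableSet_Ioi
    exact (hint X hX (1 + η) (by linarith)).1

/-- the fixed representatives -/
noncomputable def rc (K : Type) [Field K] [NumberField K] : ℝ := (exists_rep K).choose

/-- the class of an ideal -/
noncomputable def cl (𝔞 : Ideal (𝓞 K)) : ClassGroup (𝓞 K) := (exists_rep K).choose_spec.choose 𝔞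

/-- the balanced generator -/
noncomputable def xg (𝔞 : Ideal (𝓞 K)) : 𝓞 K := (exists_rep K).choose_spec.choose_spec.choose 𝔞

lemma rep_spec : 1 ≤ rc K ∧ ∀ 𝔞 : Ideal (𝓞 K), 𝔞 ≠ ⊥ →
      𝔞 * rp K (cl 𝔞) = Ideal.span {xg 𝔞} ∧ xg 𝔞 ≠ 0 ∧
      QQ (xg 𝔞 : K) ≤ (rc K * (Ideal.absNorm 𝔞 : ℝ) ^ (1 / dg K)) ^ 2 :=
  (exists_rep K).choose_spec.choose_spec.choose_spec

lemma rep_cl : Rep (cl (K := K)) xg := ⟨fun 𝔞 h => (rep_spec.2 𝔞 h).1, fun 𝔞 h => (rep_spec.2 𝔞 h).2.1⟩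

/-- the number of ideals in a class -/
theorem count_ideals (K : Type) [Field K] [NumberField K] : ∃ C : ℝ, 0 < C ∧
    ∀ (𝔡 : Ideal (𝓞 K)), 𝔡 ≠ ⊥ → ∀ c : ClassGroup (𝓞 K), ∀ u : ℝ, 1 ≤ u → ∀ S : Finset (Ideal (𝓞 K)),
      (∀ 𝔞 ∈ S, 𝔞 ≠ ⊥ ∧ cl 𝔞 = c ∧ (Ideal.absNorm 𝔞 : ℝ) ≤ u) →
      (∀ 𝔞 ∈ S, ∀ 𝔞' ∈ S, xg 𝔞 - xg 𝔞' ∈ Ideal.span {(2 : 𝓞 K)} * (rp K c * 𝔡)) →
      (S.card : ℝ) ≤ 1 + C * (u / (Ideal.absNorm 𝔡 : ℝ)) := by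
  classical
  obtain ⟨C, hC, h⟩ := count_class K
  have hrc := (rep_spec (K := K)).1
  set n := Module.finrank ℚ K with hn
  refine ⟨C * rc K ^ n, by positivity, fun 𝔡 hd0 c u hu S hS1 hS2 => ?_⟩
  have hb0 := rp_ne_bot (K := K) c
  have h20 : Ideal.span {(2 : 𝓞 K)} ≠ ⊥ := by
    rw [Ne, Ideal.span_singleton_eq_bot]
    exact two_ne_zero
  have hc0 : Ideal.span {(2 : 𝓞 K)} * (rp K c * 𝔡) ≠ ⊥ := mul_ne_zero h20 (mul_ne_zero hb0 hd0)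
  have hNd := absNorm_pos0 hd0
  have hdg := dg_pos (K := K)
  have hinj : Set.InjOn (fun 𝔞 : Ideal (𝓞 K) => xg 𝔞) S := by
    intro 𝔞 h𝔞 𝔞' h𝔞' hx
    have h5 := hS1 𝔞 h𝔞
    have h6 := hS1 𝔞' h𝔞'
    have h7 := (rep_cl (K := K)).inj c (a₁ := ⟨𝔞, h5.1, h5.2.1⟩) (a₂ := ⟨𝔞', h6.1, h6.2.1⟩) hx
    exact congrArg Subtype.val h7
  have hR : 0 < rc K * u ^ (1 / dg K) := by positivity
  have h5 := h _ hc0 (rc K * u ^ (1 / dg K)) hR (S.image xg) ?_ ?_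
  · rw [Finset.card_image_of_injOn hinj] at h5
    refine h5.trans ?_
    have h6 : (rc K * u ^ (1 / dg K)) ^ n = rc K ^ n * u := by
      rw [mul_pow, ← Real.rpow_natCast (u ^ (1 / dg K)), ← Real.rpow_mul (by linarith)]
      have h7 : 1 / dg K * (n : ℝ) = 1 := by
        have h8 : dg K = (n : ℝ) := rfl
        rw [← h8]
        field_simp
      rw [h7, Real.rpow_one]
    rw [h6]
    have h7 : (Ideal.absNorm 𝔡 : ℝ) ≤ (Ideal.absNorm (Ideal.span {(2 : 𝓞 K)} * (rp K c * 𝔡)) : ℝ) := by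
      rw [map_mul, map_mul]
      push_cast
      have h8 := one_le_absNorm h20
      have h9 := one_le_absNorm hb0
      calc (Ideal.absNorm 𝔡 : ℝ) = 1 * (1 * (Ideal.absNorm 𝔡 : ℝ)) := by ring
        _ ≤ _ := by gcongr
    have h8 : rc K ^ n * u / (Ideal.absNorm (Ideal.span {(2 : 𝓞 K)} * (rp K c * 𝔡)) : ℝ) ≤
        rc K ^ n * u / (Ideal.absNorm 𝔡 : ℝ) := by
      have : 0 ≤ rc K ^ n * u := by positivity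
      gcongr
    have h9 := mul_le_mul_of_nonneg_left h8 hC.le
    calc _ ≤ 1 + C * (rc K ^ n * u / (Ideal.absNorm 𝔡 : ℝ)) := by linarith
      _ = _ := by ring
  · intro x hx y hy
    obtain ⟨𝔞, h𝔞, rfl⟩ := Finset.mem_image.mp hx
    obtain ⟨𝔞', h𝔞', rfl⟩ := Finset.mem_image.mp hy
    exact hS2 𝔞 h𝔞 𝔞' h𝔞'
  · intro x hx
    obtain ⟨𝔞, h𝔞, rfl⟩ := Finset.mem_image.mp hx
    refine (rep_spec.2 𝔞 (hS1 𝔞 h𝔞).1).2.2.trans ?_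
    have h5 := (hS1 𝔞 h𝔞).2.2
    have hr0 : 0 ≤ rc K := by linarith
    gcongr

/-- **the weighted large sieve** -/
theorem ls_weight (K : Type) [Field K] [NumberField K] : ∃ C : ℝ, 0 < C ∧
    ∀ (𝔣 𝔡 : Ideal (𝓞 K)) (e : InfinitePlace K → ℕ) (I : Type) [Fintype I]
      (ψ : I → Ideal (𝓞 K) →*₀ ℂ), Fam 𝔣 𝔡 e ψ → 𝔣 ≤ 𝔡 → 𝔡 ^ 3 ≤ 𝔣 →
      ∀ b : Ideal (𝓞 K) → ℂ, (Summable fun 𝔞 => ‖b 𝔞‖) →
      ∀ v : Ideal (𝓞 K) → ℝ, (∀ 𝔞, 0 < v 𝔞) → (Summable fun 𝔞 => v 𝔞 * ‖b 𝔞‖ ^ 2) →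
      ∀ W : ℝ, 0 ≤ W →
      (∀ c : ClassGroup (𝓞 K), ∀ S : Finset (Ideal (𝓞 K)), (∀ 𝔞 ∈ S, 𝔞 ≠ ⊥ ∧ cl 𝔞 = c ∧ b 𝔞 ≠ 0) →
        (∀ 𝔞 ∈ S, ∀ 𝔞' ∈ S, xg 𝔞 - xg 𝔞' ∈ Ideal.span {(2 : 𝓞 K)} * (rp K c * 𝔡)) →
        ∑ 𝔞 ∈ S, (v 𝔞)⁻¹ ≤ W) →
      ∑ i, ‖∑' 𝔞 : Ideal (𝓞 K), b 𝔞 * ψ i 𝔞‖ ^ 2 ≤
        C * ((Ideal.absNorm 𝔡 : ℝ) * W) * ∑' 𝔞, v 𝔞 * ‖b 𝔞‖ ^ 2 := by
  classical
  set hh : ℝ := (Fintype.card (ClassGroup (𝓞 K)) : ℝ) with hhh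
  have hh0 : 0 < hh := by
    have : 0 < Fintype.card (ClassGroup (𝓞 K)) := Fintype.card_pos
    rw [hhh]
    exact_mod_cast this
  refine ⟨hh * (((mu K : ℝ) + 1) * 2 ^ (Module.finrank ℚ K)), by positivity, ?_⟩
  intro 𝔣 𝔡 e I hI ψ hF h1 h3 b hb v hv hvb W hW0 hW
  rcases isEmpty_or_nonempty I with hemp | ⟨⟨i₀⟩⟩
  · rw [Finset.univ_eq_empty, Finset.sum_empty]
    have : 0 ≤ ∑' 𝔞, v 𝔞 * ‖b 𝔞‖ ^ 2 := tsum_nonneg fun 𝔞 => mul_nonneg (hv _).le (sq_nonneg _)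
    positivity
  have hψ : ∀ i 𝔞, ‖ψ i 𝔞‖ ≤ 1 := fun i 𝔞 => (hF.mod i).norm_le_one 𝔞
  have hdec : ∀ f : Ideal (𝓞 K) → ℂ, Summable f → f ⊥ = 0 →
      ∑' 𝔞, f 𝔞 = ∑ c, ∑' 𝔞 : Jc cl c, f 𝔞.1 := by
    intro f hf hf0
    have e1 : ∀ c, ∑' 𝔞 : Jc cl c, f 𝔞.1 = ∑' 𝔞, {𝔞 : Ideal (𝓞 K) | 𝔞 ≠ ⊥ ∧ cl 𝔞 = c}.indicator f 𝔞 :=
      fun c => tsum_subtype {𝔞 : Ideal (𝓞 K) | 𝔞 ≠ ⊥ ∧ cl 𝔞 = c} f
    simp_rw [e1]
    rw [← Summable.tsum_finsetSum (fun c _ => hf.indicator _)]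
    refine tsum_congr fun 𝔞 => ?_
    by_cases h0 : 𝔞 = ⊥
    · subst h0
      rw [hf0, Finset.sum_eq_zero]
      intro c _
      rw [indicator_of_notMem]
      exact fun h => h.1 rfl
    · rw [Finset.sum_eq_single (cl 𝔞)]
      · rw [indicator_of_mem (show 𝔞 ∈ {𝔞' : Ideal (𝓞 K) | 𝔞' ≠ ⊥ ∧ cl 𝔞' = cl 𝔞} from ⟨h0, rfl⟩)]
      · intro c _ hc
        rw [indicator_of_notMem]
        exact fun h => hc h.2.symm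
      · intro h
        exact absurd (Finset.mem_univ _) h
  have hsum : ∀ i, Summable fun 𝔞 => b 𝔞 * ψ i 𝔞 := by
    intro i
    refine Summable.of_norm_bounded hb fun 𝔞 => ?_
    rw [norm_mul]
    exact mul_le_of_le_one_right (norm_nonneg _) (hψ i 𝔞)
  have hd : ∀ i, ∑' 𝔞, b 𝔞 * ψ i 𝔞 = ∑ c, ∑' 𝔞 : Jc cl c, b 𝔞.1 * ψ i 𝔞.1 := by
    intro i
    refine hdec (fun 𝔞 => b 𝔞 * ψ i 𝔞) (hsum i) ?_
    have : ψ i (⊥ : Ideal (𝓞 K)) = 0 := map_zero (ψ i)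
    rw [this, mul_zero]
  have hcsq : ∀ f : ClassGroup (𝓞 K) → ℂ, ‖∑ c, f c‖ ^ 2 ≤ hh * ∑ c, ‖f c‖ ^ 2 := by
    intro f
    have e1 : ‖∑ c, f c‖ ^ 2 ≤ (∑ c, ‖f c‖) ^ 2 := pow_le_pow_left₀ (norm_nonneg _) (norm_sum_le _ _) 2
    have e2 := Finset.sum_mul_sq_le_sq_mul_sq Finset.univ (fun _ : ClassGroup (𝓞 K) => (1 : ℝ)) (fun c => ‖f c‖)
    simp only [one_mul, one_pow, Finset.sum_const, Finset.card_univ, nsmul_eq_mul, mul_one] at e2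
    exact e1.trans e2
  have hvs : ∀ c, Summable fun 𝔞 : Jc cl c => v 𝔞.1 * ‖b 𝔞.1‖ ^ 2 := fun c =>
    hvb.comp_injective Subtype.val_injective
  have htot : ∑ c, ∑' 𝔞 : Jc cl c, v 𝔞.1 * ‖b 𝔞.1‖ ^ 2 ≤ ∑' 𝔞, v 𝔞 * ‖b 𝔞‖ ^ 2 := by
    have e1 : ∀ c, ∑' 𝔞 : Jc cl c, v 𝔞.1 * ‖b 𝔞.1‖ ^ 2 =
        ∑' 𝔞, {𝔞 : Ideal (𝓞 K) | 𝔞 ≠ ⊥ ∧ cl 𝔞 = c}.indicator (fun 𝔞 => v 𝔞 * ‖b 𝔞‖ ^ 2) 𝔞 :=
      fun c => tsum_subtype {𝔞 : Ideal (𝓞 K) | 𝔞 ≠ ⊥ ∧ cl 𝔞 = c} (fun 𝔞 => v 𝔞 * ‖b 𝔞‖ ^ 2)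
    simp_rw [e1]
    rw [← Summable.tsum_finsetSum (fun c _ => hvb.indicator _)]
    have hs : Summable fun 𝔞 : Ideal (𝓞 K) => ∑ c : ClassGroup (𝓞 K),
        {𝔞 : Ideal (𝓞 K) | 𝔞 ≠ ⊥ ∧ cl 𝔞 = c}.indicator (fun 𝔞 => v 𝔞 * ‖b 𝔞‖ ^ 2) 𝔞 :=
      summable_sum fun c _ => hvb.indicator _
    refine hs.tsum_le_tsum (fun 𝔞 => ?_) hvb
    have hnn : 0 ≤ v 𝔞 * ‖b 𝔞‖ ^ 2 := mul_nonneg (hv _).le (sq_nonneg _)
    rw [Finset.sum_eq_single (cl 𝔞)]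
    · exact indicator_le_self' (fun _ _ => hnn) 𝔞
    · intro c _ hc
      rw [indicator_of_notMem]
      exact fun h => hc h.2.symm
    · intro h
      exact absurd (Finset.mem_univ _) h
  have hNd : (0 : ℝ) ≤ (Ideal.absNorm 𝔡 : ℝ) := Nat.cast_nonneg _
  calc ∑ i, ‖∑' 𝔞, b 𝔞 * ψ i 𝔞‖ ^ 2
      ≤ ∑ i, hh * ∑ c, ‖∑' 𝔞 : Jc cl c, b 𝔞.1 * ψ i 𝔞.1‖ ^ 2 := by
        refine Finset.sum_le_sum fun i _ => ?_
        rw [hd i]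
        exact hcsq _
    _ = hh * ∑ c, ∑ i, ‖∑' 𝔞 : Jc cl c, b 𝔞.1 * ψ i 𝔞.1‖ ^ 2 := by
        rw [← Finset.mul_sum, Finset.sum_comm]
    _ ≤ hh * ∑ c, (mu K : ℝ) * (2 ^ (Module.finrank ℚ K) * (Ideal.absNorm 𝔡 : ℝ)) *
        (W * ∑' 𝔞 : Jc cl c, v 𝔞.1 * ‖b 𝔞.1‖ ^ 2) := by
        apply mul_le_mul_of_nonneg_left _ hh0.le
        exact Finset.sum_le_sum fun c _ => ls_class rep_cl hF h1 h3 c hb hv hvb hW0 (hW c)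
    _ = hh * ((mu K : ℝ) * 2 ^ (Module.finrank ℚ K)) * ((Ideal.absNorm 𝔡 : ℝ) * W) *
        ∑ c, ∑' 𝔞 : Jc cl c, v 𝔞.1 * ‖b 𝔞.1‖ ^ 2 := by
        rw [← Finset.mul_sum, ← Finset.mul_sum]
        ring
    _ ≤ hh * (((mu K : ℝ) + 1) * 2 ^ (Module.finrank ℚ K)) * ((Ideal.absNorm 𝔡 : ℝ) * W) *
        ∑' 𝔞, v 𝔞 * ‖b 𝔞‖ ^ 2 := by
        have hn0 : 0 ≤ ∑ c, ∑' 𝔞 : Jc cl c, v 𝔞.1 * ‖b 𝔞.1‖ ^ 2 := Finset.sum_nonneg fun c _ =>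
          tsum_nonneg fun 𝔞 => mul_nonneg (hv _).le (sq_nonneg _)
        have : (mu K : ℝ) ≤ (mu K : ℝ) + 1 := by linarith
        gcongr

/-- **finite sums** -/
theorem ls_fin (K : Type) [Field K] [NumberField K] : ∃ C : ℝ, 0 < C ∧
    ∀ (𝔣 𝔡 : Ideal (𝓞 K)) (e : InfinitePlace K → ℕ) (I : Type) [Fintype I]
      (ψ : I → Ideal (𝓞 K) →*₀ ℂ), Fam 𝔣 𝔡 e ψ → 𝔣 ≠ ⊥ → 𝔣 ≤ 𝔡 → 𝔡 ^ 3 ≤ 𝔣 →
      ∀ (X : ℝ), 1 ≤ X → ∀ (T : Finset (Ideal (𝓞 K))), (∀ 𝔞 ∈ T, (Ideal.absNorm 𝔞 : ℝ) ≤ X) →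
      ∀ b : Ideal (𝓞 K) → ℂ,
      ∑ i, ‖∑ 𝔞 ∈ T, b 𝔞 * ψ i 𝔞‖ ^ 2 ≤ C * ((Ideal.absNorm 𝔡 : ℝ) + X) * ∑ 𝔞 ∈ T, ‖b 𝔞‖ ^ 2 := by
  classical
  obtain ⟨C₁, hC₁, hls⟩ := ls_weight K
  obtain ⟨C₂, hC₂, hct⟩ := count_ideals K
  refine ⟨C₁ * (1 + C₂), by positivity, ?_⟩
  intro 𝔣 𝔡 e I hI ψ hF hf0 h1 h3 X hX T hT b
  have hd0 : 𝔡 ≠ ⊥ := fun h5 => hf0 (by rw [h5] at h1; exact le_bot_iff.mp h1)
  have hNd := absNorm_pos0 hd0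
  set b' : Ideal (𝓞 K) → ℂ := fun 𝔞 => if 𝔞 ∈ T then b 𝔞 else 0 with hb'
  have hb0 : ∀ 𝔞 ∉ T, b' 𝔞 = 0 := fun 𝔞 h => if_neg h
  have hb1 : ∀ 𝔞 ∈ T, b' 𝔞 = b 𝔞 := fun 𝔞 h => if_pos h
  have hW0 : (0 : ℝ) ≤ 1 + C₂ * (X / (Ideal.absNorm 𝔡 : ℝ)) := by positivity
  have h5 := hls 𝔣 𝔡 e I ψ hF h1 h3 b' (summable_of_ne_finset_zero (s := T) fun 𝔞 h => by
    rw [hb0 𝔞 h, norm_zero]) (fun _ => 1) (fun _ => one_pos)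
    (summable_of_ne_finset_zero (s := T) fun 𝔞 h => by
      rw [hb0 𝔞 h, norm_zero]; ring) (1 + C₂ * (X / (Ideal.absNorm 𝔡 : ℝ))) hW0 ?_
  · have e1 : ∀ i, ∑' 𝔞, b' 𝔞 * ψ i 𝔞 = ∑ 𝔞 ∈ T, b 𝔞 * ψ i 𝔞 := by
      intro i
      rw [tsum_eq_sum (s := T) (fun 𝔞 h => by rw [hb0 𝔞 h, zero_mul])]
      exact Finset.sum_congr rfl fun 𝔞 h => by rw [hb1 𝔞 h]
    have e2 : ∑' 𝔞, (1 : ℝ) * ‖b' 𝔞‖ ^ 2 = ∑ 𝔞 ∈ T, ‖b 𝔞‖ ^ 2 := by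
      rw [tsum_eq_sum (s := T) (fun 𝔞 h => by rw [hb0 𝔞 h, norm_zero]; ring)]
      exact Finset.sum_congr rfl fun 𝔞 h => by rw [hb1 𝔞 h, one_mul]
    simp_rw [e1] at h5
    rw [e2] at h5
    refine h5.trans ?_
    apply mul_le_mul_of_nonneg_right _ (Finset.sum_nonneg fun _ _ => sq_nonneg _)
    rw [mul_assoc C₁ (1 + C₂)]
    apply mul_le_mul_of_nonneg_left _ hC₁.le
    have e3 : (Ideal.absNorm 𝔡 : ℝ) * (1 + C₂ * (X / (Ideal.absNorm 𝔡 : ℝ))) =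
        (Ideal.absNorm 𝔡 : ℝ) + C₂ * X := by
      field_simp
    rw [e3]
    nlinarith
  · intro c S hS1 hS2
    simp only [inv_one, Finset.sum_const, nsmul_eq_mul, mul_one]
    refine hct 𝔡 hd0 c X hX S (fun 𝔞 h𝔞 => ?_) hS2
    obtain ⟨p1, p2, p3⟩ := hS1 𝔞 h𝔞
    refine ⟨p1, p2, hT 𝔞 ?_⟩
    by_contra h6
    exact p3 (hb0 𝔞 h6)

/-- **tails** -/
theorem ls_tail (K : Type) [Field K] [NumberField K] {η : ℝ} (hη : 0 < η) : ∃ C : ℝ, 0 < C ∧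
    ∀ (𝔣 𝔡 : Ideal (𝓞 K)) (e : InfinitePlace K → ℕ) (I : Type) [Fintype I]
      (ψ : I → Ideal (𝓞 K) →*₀ ℂ), Fam 𝔣 𝔡 e ψ → 𝔣 ≠ ⊥ → 𝔣 ≤ 𝔡 → 𝔡 ^ 3 ≤ 𝔣 →
      ∀ (X : ℝ), 1 ≤ X → ∀ b : Ideal (𝓞 K) → ℂ,
      (∀ 𝔞, b 𝔞 ≠ 0 → 𝔞 ≠ ⊥ ∧ X ≤ (Ideal.absNorm 𝔞 : ℝ)) → (Summable fun 𝔞 => ‖b 𝔞‖) →
      (Summable fun 𝔞 => (Ideal.absNorm 𝔞 : ℝ) ^ (1 + η) * ‖b 𝔞‖ ^ 2) →
      ∑ i, ‖∑' 𝔞 : Ideal (𝓞 K), b 𝔞 * ψ i 𝔞‖ ^ 2 ≤ C * ((Ideal.absNorm 𝔡 : ℝ) / X + 1) *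
        ∑' 𝔞, (Ideal.absNorm 𝔞 : ℝ) ^ (1 + η) * ‖b 𝔞‖ ^ 2 := by
  classical
  obtain ⟨C₁, hC₁, hls⟩ := ls_weight K
  obtain ⟨C₂, hC₂, hct⟩ := count_ideals K
  refine ⟨C₁ * (1 + (1 + η) / η * C₂), by positivity, ?_⟩
  intro 𝔣 𝔡 e I hI ψ hF hf0 h1 h3 X hX b hbX hb hvb
  have hd0 : 𝔡 ≠ ⊥ := fun h5 => hf0 (by rw [h5] at h1; exact le_bot_iff.mp h1)
  have hNd := absNorm_pos0 hd0
  have hX0 : 0 < X := by linarith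
  set v : Ideal (𝓞 K) → ℝ := fun 𝔞 => if 𝔞 = ⊥ then 1 else (Ideal.absNorm 𝔞 : ℝ) ^ (1 + η) with hv
  have hv0 : ∀ 𝔞, 0 < v 𝔞 := by
    intro 𝔞
    rw [hv]
    simp only
    split_ifs with h
    · exact one_pos
    · have := absNorm_pos0 h
      positivity
  have hvb' : ∀ 𝔞, v 𝔞 * ‖b 𝔞‖ ^ 2 = (Ideal.absNorm 𝔞 : ℝ) ^ (1 + η) * ‖b 𝔞‖ ^ 2 := by
    intro 𝔞
    by_cases h : b 𝔞 = 0
    · rw [h, norm_zero]; ring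
    · rw [hv]
      simp only
      rw [if_neg (hbX 𝔞 h).1]
  set W : ℝ := X⁻¹ + (1 + η) / η * (C₂ / (Ideal.absNorm 𝔡 : ℝ)) with hWdef
  have hW0 : 0 ≤ W := by positivity
  have h5 := hls 𝔣 𝔡 e I ψ hF h1 h3 b hb v hv0 (by simp_rw [hvb']; exact hvb) W hW0 ?_
  · simp_rw [hvb'] at h5
    refine h5.trans ?_
    have hnn : 0 ≤ ∑' 𝔞, (Ideal.absNorm 𝔞 : ℝ) ^ (1 + η) * ‖b 𝔞‖ ^ 2 := tsum_nonneg fun 𝔞 => by positivity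
    apply mul_le_mul_of_nonneg_right _ hnn
    rw [mul_assoc C₁]
    apply mul_le_mul_of_nonneg_left _ hC₁.le
    have e3 : (Ideal.absNorm 𝔡 : ℝ) * W = (Ideal.absNorm 𝔡 : ℝ) / X + (1 + η) / η * C₂ := by
      rw [hWdef]
      field_simp
    rw [e3]
    have h6 : 0 ≤ (1 + η) / η * C₂ := by positivity
    have h7 : 0 ≤ (Ideal.absNorm 𝔡 : ℝ) / X := by positivity
    nlinarith
  · intro c S hS1 hS2
    have hSX : ∀ 𝔞 ∈ S, X ≤ (Ideal.absNorm 𝔞 : ℝ) := fun 𝔞 h => (hbX 𝔞 (hS1 𝔞 h).2.2).2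
    have h6 := layer S (fun 𝔞 => (Ideal.absNorm 𝔞 : ℝ)) (A := 1) (B := C₂ / (Ideal.absNorm 𝔡 : ℝ))
      hX0 hη (by norm_num) (by positivity) hSX (fun u hu => by
        have h7 := hct 𝔡 hd0 c u (by linarith) (S.filter (fun 𝔞 => (Ideal.absNorm 𝔞 : ℝ) ≤ u))
          (fun 𝔞 h𝔞 => ?_) (fun 𝔞 h𝔞 𝔞' h𝔞' => ?_)
        · refine h7.trans (le_of_eq ?_)
          ring
        · obtain ⟨p1, p2⟩ := Finset.mem_filter.mp h𝔞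
          exact ⟨(hS1 𝔞 p1).1, (hS1 𝔞 p1).2.1, p2⟩
        · exact hS2 𝔞 (Finset.mem_filter.mp h𝔞).1 𝔞' (Finset.mem_filter.mp h𝔞').1)
    have e1 : ∑ 𝔞 ∈ S, (v 𝔞)⁻¹ = ∑ 𝔞 ∈ S, (Ideal.absNorm 𝔞 : ℝ) ^ (-(1 + η)) := by
      refine Finset.sum_congr rfl fun 𝔞 h => ?_
      rw [hv]
      simp only
      rw [if_neg (hS1 𝔞 h).1, Real.rpow_neg (Nat.cast_nonneg _)]
    rw [e1]
    refine h6.trans ?_
    have e2 : X ^ (-(1 + η)) ≤ X⁻¹ := by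
      rw [← Real.rpow_neg_one]
      exact Real.rpow_le_rpow_of_exponent_le hX (by linarith)
    have e3 : X ^ (-η) ≤ 1 := Real.rpow_le_one_of_one_le_of_nonpos hX (by linarith)
    rw [hWdef]
    have e4 : (1 + η) / η * (C₂ / (Ideal.absNorm 𝔡 : ℝ)) * X ^ (-η) ≤
        (1 + η) / η * (C₂ / (Ideal.absNorm 𝔡 : ℝ)) := mul_le_of_le_one_right (by positivity) e3
    linarith

end Pool.Agent.A856.ZD
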